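import Mathlib

set_option autoImplicit false

namespace Pool.Agent.Helper84

/-- Specialisation of a point of the curve over the fraction field of `O` at which a certain
function is integral. -/
theorem specialise_point {k : Type} [Field k] {K : Type} [Field K] [Algebra k K]
    {O F : Type} [CommRing O] [IsDomain O] [IsIntegrallyClosed O] [Algebra k O] [Field F]
    [Algebra O F] [IsFractionRing O F] [Algebra k F] [IsScalarTower k O F]
    (b : k) (p : Polynomial k) (hp : p.Monic) (cc : O →ₐ[k] K) (r : O) (l μ : F)
    (eq1 : μ ^ 2 = l ^ 3 + algebraMap k F b)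
    (eq2 : (algebraMap O F r - l) * Polynomial.aeval l p = 1) :
    ∃ l₀ μ₀ : K, μ₀ ^ 2 = l₀ ^ 3 + algebraMap k K b ∧
      (cc r - l₀) * Polynomial.aeval l₀ p = 1 := by
  have htower : ∀ a : k, algebraMap k F a = algebraMap O F (algebraMap k O a) := fun a =>
    IsScalarTower.algebraMap_apply k O F a
  have hinj : Function.Injective (algebraMap O F) := IsFractionRing.injective O F
  have haeval : ∀ s : O, Polynomial.aeval (algebraMap O F s) p
      = algebraMap O F (Polynomial.aeval s p) := by
    intro s
    exact Polynomial.aeval_algebraMap_apply F s p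
  -- integrality of `l`
  have hm1 : ((Polynomial.X - Polynomial.C r) * p.map (algebraMap k O)).Monic :=
    (Polynomial.monic_X_sub_C r).mul (hp.map _)
  have hdeg : (1 : Polynomial O).degree
      < ((Polynomial.X - Polynomial.C r) * p.map (algebraMap k O)).degree := by
    rw [Polynomial.degree_one, Polynomial.degree_mul, Polynomial.degree_X_sub_C]
    have h1 : (0 : WithBot ℕ) ≤ (p.map (algebraMap k O)).degree := by
      rw [Polynomial.zero_le_degree_iff]
      exact (hp.map _).ne_zero
    calc (0 : WithBot ℕ) < 1 := zero_lt_one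
      _ = 1 + 0 := (add_zero _).symm
      _ ≤ 1 + (p.map (algebraMap k O)).degree := by gcongr
  have hlint : IsIntegral O l := by
    refine ⟨(Polynomial.X - Polynomial.C r) * p.map (algebraMap k O) + 1,
      hm1.add_of_left hdeg, ?_⟩
    have h1 : Polynomial.eval₂ (algebraMap O F) l (p.map (algebraMap k O))
        = Polynomial.aeval l p := by
      rw [Polynomial.eval₂_map, Polynomial.aeval_def, IsScalarTower.algebraMap_eq k O F]
    rw [Polynomial.eval₂_add, Polynomial.eval₂_mul, Polynomial.eval₂_sub, Polynomial.eval₂_X,
      Polynomial.eval₂_C, Polynomial.eval₂_one, h1]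
    have : (l - algebraMap O F r) * Polynomial.aeval l p
        = - ((algebraMap O F r - l) * Polynomial.aeval l p) := by ring
    rw [this, eq2]
    ring
  obtain ⟨l1, rfl⟩ := IsIntegrallyClosed.isIntegral_iff.mp hlint
  have hμint : IsIntegral O μ := by
    refine ⟨Polynomial.X ^ 2 - Polynomial.C (l1 ^ 3 + algebraMap k O b),
      Polynomial.monic_X_pow_sub_C _ (by norm_num), ?_⟩
    rw [Polynomial.eval₂_sub, Polynomial.eval₂_X_pow, Polynomial.eval₂_C, eq1, map_add, map_pow,
      ← htower]
    ring
  obtain ⟨m1, rfl⟩ := IsIntegrallyClosed.isIntegral_iff.mp hμint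
  have e1 : m1 ^ 2 = l1 ^ 3 + algebraMap k O b := by
    apply hinj
    rw [map_pow, map_add, map_pow, ← htower]
    exact eq1
  have e2 : (r - l1) * Polynomial.aeval l1 p = 1 := by
    apply hinj
    rw [map_mul, map_sub, ← haeval, map_one]
    exact eq2
  refine ⟨cc l1, cc m1, ?_, ?_⟩
  · rw [← map_pow, e1, map_add, map_pow, AlgHom.commutes]
  · have := congrArg cc e2
    rw [map_mul, map_sub, map_one, ← Polynomial.aeval_algHom_apply] at this
    exact this

end Pool.Agent.Helper84
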