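import Mathlib

set_option autoImplicit false

namespace Pool.Agent.Helper84

/-- Formal noncommutative rational expressions over `k` in variables indexed by `g`:
built from scalars and variables by addition, multiplication and inversion. -/
inductive NCExpr (k : Type) (g : Type) : Type
  | scalar (c : k) : NCExpr k g
  | var (i : g) : NCExpr k g
  | add (a b : NCExpr k g) : NCExpr k g
  | mul (a b : NCExpr k g) : NCExpr k g
  | inv (a : NCExpr k g) : NCExpr k g

namespace NCExpr

variable {k g : Type} [Field k]

/-- Evaluation of an expression at a tuple `X` of elements of a `k`-algebra `R`
(for us, a matrix algebra). The value is meaningful when the expression is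
defined at `X`, see `DefinedAt`. -/
noncomputable def eval {R : Type} [Ring R] [Algebra k R] (X : g → R) : NCExpr k g → R
  | scalar c => algebraMap k R c
  | var i => X i
  | add a b => eval X a + eval X b
  | mul a b => eval X a * eval X b
  | inv a => Ring.inverse (eval X a)

/-- The expression is defined at the tuple `X`: every element that has to be inverted
along the way is invertible in `R`. -/
def DefinedAt {R : Type} [Ring R] [Algebra k R] (X : g → R) : NCExpr k g → Prop
  | scalar _ => True
  | var _ => True
  | add a b => DefinedAt X a ∧ DefinedAt X b
  | mul a b => DefinedAt X a ∧ DefinedAt X b
  | inv a => DefinedAt X a ∧ IsUnit (eval X a)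

/-- Two expressions represent the same noncommutative rational function over `K`:
they take the same value at every tuple of square matrices over `K`
(of any size) at which both are defined. -/
def SameFunction (K : Type) [Field K] [Algebra k K] (e e' : NCExpr k g) : Prop :=
  ∀ (n : ℕ) (X : g → Matrix (Fin n) (Fin n) K),
    e.DefinedAt X → e'.DefinedAt X → e.eval X = e'.eval X

end NCExpr

end Pool.Agent.Helper84
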