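import Mathlib

set_option autoImplicit false

namespace Pool.Agent.Helper84

section identity

variable {R : Type} [Ring R] {x y x' y' m h L M b : R}

/-- The relations of the configuration imply that `L` and `M` commute. -/
theorem nc_commute
    (hA : x * y - y * x = h) (hA' : x' * y' - y' * x' = h)
    (hC : m * x' = x * m + y + y')
    (hD : m * y' = y * m + (x ^ 2 + x * x' + x' ^ 2))
    (hL : L = m ^ 2 - x - x') (hM : M = L * m - m * x - y) :
    L * M = M * L := by
  have hC' : m * x' - (x * m + y + y') = 0 := sub_eq_zero.mpr hC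
  have hD' : m * y' - (y * m + (x ^ 2 + x * x' + x' ^ 2)) = 0 := sub_eq_zero.mpr hD
  have hAA : (x * y - y * x) - (x' * y' - y' * x') = 0 := by rw [hA, hA', sub_self]
  have e2 : M = m * L - x' * m + y' := by
    have : (L * m - m * x - y) - (m * L - x' * m + y') = m * x' - (x * m + y + y') := by
      rw [hL]; noncomm_ring
    rw [hM, ← sub_eq_zero, this, hC']
  have key : L * (m * L - x' * m + y') - (L * m - m * x - y) * L
      = m * (m * y' - (y * m + (x ^ 2 + x * x' + x' ^ 2)))
        - m * (m * x' - (x * m + y + y')) * m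
        - (m * y' - (y * m + (x ^ 2 + x * x' + x' ^ 2))) * m
        + (m * x' - (x * m + y + y')) * x'
        + x * (m * x' - (x * m + y + y'))
        + ((x * y - y * x) - (x' * y' - y' * x')) := by
    rw [hL]; noncomm_ring
  have : L * M - M * L = 0 := by
    nth_rewrite 1 [e2]
    nth_rewrite 1 [hM]
    rw [key, hC', hD', hAA]
    simp
  exact sub_eq_zero.mp this

/-- The relations of the configuration imply the Weierstrass equation for `(L, M)`. -/
theorem nc_curve
    (hA : x * y - y * x = h) (hA' : x' * y' - y' * x' = h)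
    (hB : m * h = x ^ 3 + b - y ^ 2)
    (hC : m * x' = x * m + y + y')
    (hD : m * y' = y * m + (x ^ 2 + x * x' + x' ^ 2))
    (hL : L = m ^ 2 - x - x') (hM : M = L * m - m * x - y) :
    M ^ 2 = L ^ 3 + b := by
  have hcomm : L * M = M * L := nc_commute hA hA' hC hD hL hM
  have hC' : m * x' - (x * m + y + y') = 0 := sub_eq_zero.mpr hC
  have hD' : m * y' - (y * m + (x ^ 2 + x * x' + x' ^ 2)) = 0 := sub_eq_zero.mpr hD
  have hB' : m * (x * y - y * x) - (x ^ 3 + b - y ^ 2) = 0 := by rw [hA, hB, sub_self]
  have e2 : M = m * L - x' * m + y' := by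
    have : (L * m - m * x - y) - (m * L - x' * m + y') = m * x' - (x * m + y + y') := by
      rw [hL]; noncomm_ring
    rw [hM, ← sub_eq_zero, this, hC']
  -- `m L = L m - P - Q`
  have hmL : m * L = L * m - (m * x + y) - (y' - x' * m) := by
    have : L * m - m * x - y = m * L - x' * m + y' := by rw [← hM, ← e2]
    have h2 : m * L = (m * L - x' * m + y') - (y' - x' * m) := by noncomm_ring
    rw [h2, ← this]; noncomm_ring
  -- `P L = - L Q`
  have hPL : (m * x + y) * L = - (L * (y' - x' * m)) := by
    have h1 : L * (m * L - x' * m + y') = (L * m - m * x - y) * L := by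
      rw [← e2, ← hM]; exact hcomm
    have h2 : (m * x + y) * L = L * m * L - (L * m - m * x - y) * L := by noncomm_ring
    rw [h2, ← h1]; noncomm_ring
  have s1 : M ^ 2 = L ^ 3 + L * (x + x') * L + L * m * (y' - x' * m)
      - ((m * x + y) * L) * m + (m * x + y) ^ 2 := by
    have h1 : M ^ 2 = (L * m - (m * x + y)) * (m * L + (y' - x' * m)) := by
      have a1 : M = L * m - (m * x + y) := by rw [hM]; noncomm_ring
      have a2 : M = m * L + (y' - x' * m) := by rw [e2]; noncomm_ring
      rw [sq]; nth_rewrite 1 [a1]; nth_rewrite 1 [a2]; rfl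
    have h2 : (L * m - (m * x + y)) * (m * L + (y' - x' * m))
        = L * m ^ 2 * L + L * m * (y' - x' * m) - (m * x + y) * (m * L)
          - (m * x + y) * (y' - x' * m) := by noncomm_ring
    have h3 : m ^ 2 = L + x + x' := by rw [hL]; noncomm_ring
    rw [h1, h2, hmL, h3]; noncomm_ring
  have s2 : M ^ 2 = L ^ 3 + L * ((x + x') * L + m * (y' - x' * m) + (y' - x' * m) * m)
      + (m * x + y) ^ 2 := by
    rw [s1, hPL]; noncomm_ring
  have s3 : (x + x') * L + m * (y' - x' * m) + (y' - x' * m) * m
      = (m * y' - (y * m + (x ^ 2 + x * x' + x' ^ 2)))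
        - (m * x' - (x * m + y + y')) * m - x' * x := by
    rw [hL]; noncomm_ring
  have s4 : (m * x + y) ^ 2 - L * (x' * x) - b
      = (m * (x * y - y * x) - (x ^ 3 + b - y ^ 2)) - m * (m * x' - (x * m + y + y')) * x
        - (m * y' - (y * m + (x ^ 2 + x * x' + x' ^ 2))) * x := by
    rw [hL]; noncomm_ring
  rw [hB', hC', hD'] at s4
  have s5 : (m * x + y) ^ 2 = L * (x' * x) + b := by
    have : (m * x + y) ^ 2 = ((m * x + y) ^ 2 - L * (x' * x) - b) + (L * (x' * x) + b) := by
      noncomm_ring
    rw [this, s4]; simp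
  rw [s2, s3, s5, hC', hD']
  noncomm_ring

/-- From an invertible commutator to the configuration. -/
theorem nc_relations {x y h hi b : R} (hh : h = x * y - y * x)
    (h1 : h * hi = 1) (h2 : hi * h = 1) (hbx : b * x = x * b) (hby : b * y = y * b)
    (m x' y' : R) (hm : m = (x ^ 3 + b - y ^ 2) * hi) (hx' : x' = h * x * hi)
    (hy' : y' = h * y * hi) :
    (x * y - y * x = h) ∧ (x' * y' - y' * x' = h) ∧ (m * h = x ^ 3 + b - y ^ 2) ∧
    (m * x' = x * m + y + y') ∧ (m * y' = y * m + (x ^ 2 + x * x' + x' ^ 2)) := by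
  have hmh : m * h = x ^ 3 + b - y ^ 2 := by rw [hm, mul_assoc, h2, mul_one]
  have hxh : x' * h = h * x := by rw [hx', mul_assoc, h2, mul_one]
  have hyh : y' * h = h * y := by rw [hy', mul_assoc, h2, mul_one]
  have cancel : ∀ a c : R, a * h = c * h → a = c := by
    intro a c e
    have := congrArg (· * hi) e
    simpa [mul_assoc, h1] using this
  refine ⟨hh.symm, ?_, hmh, ?_, ?_⟩
  · rw [hx', hy']
    have : h * x * hi * (h * y * hi) - h * y * hi * (h * x * hi)
        = h * x * (hi * h) * y * hi - h * y * (hi * h) * x * hi := by noncomm_ring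
    rw [this, h2]
    have : h * x * 1 * y * hi - h * y * 1 * x * hi = h * (x * y - y * x) * hi := by noncomm_ring
    rw [this, ← hh, mul_assoc, h1, mul_one]
  · apply cancel
    have e1 : m * x' * h = m * h * x := by rw [mul_assoc, hxh, ← mul_assoc]
    have e2 : (x * m + y + y') * h = x * (m * h) + y * h + h * y := by
      rw [add_mul, add_mul, hyh, mul_assoc]
    rw [e1, e2, hmh, hh]
    have : (x ^ 3 + b - y ^ 2) * x - (x * (x ^ 3 + b - y ^ 2) + y * (x * y - y * x)
        + (x * y - y * x) * y) = b * x - x * b := by noncomm_ring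
    rw [hbx, sub_self] at this
    exact sub_eq_zero.mp this
  · apply cancel
    have e1 : m * y' * h = m * h * y := by rw [mul_assoc, hyh, ← mul_assoc]
    have e2 : (y * m + (x ^ 2 + x * x' + x' ^ 2)) * h
        = y * (m * h) + (x ^ 2 * h + x * h * x + h * x * x) := by
      have q1 : x * x' * h = x * h * x := by rw [mul_assoc, hxh, ← mul_assoc]
      have q2 : x' ^ 2 * h = h * x * x := by
        rw [sq, mul_assoc, hxh, ← mul_assoc, hxh]
      rw [add_mul, add_mul, add_mul, q1, q2, mul_assoc]
    rw [e1, e2, hmh, hh]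
    have : (x ^ 3 + b - y ^ 2) * y - (y * (x ^ 3 + b - y ^ 2) + (x ^ 2 * (x * y - y * x)
        + x * (x * y - y * x) * x + (x * y - y * x) * x * x)) = b * y - y * b := by
      noncomm_ring
    rw [hby, sub_self] at this
    exact sub_eq_zero.mp this

end identity

end Pool.Agent.Helper84
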