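import Mathlib
import Pool.Agent.Helper84.NCDefs

set_option autoImplicit false

namespace Pool.Agent.Helper84

namespace NCExpr

variable {k g : Type} [Field k]

/-- Evaluation is functorial for algebra homomorphisms. -/
theorem eval_map {R S : Type} [Ring R] [Algebra k R] [Ring S] [Algebra k S] (φ : R →ₐ[k] S)
    (X : g → R) (e : NCExpr k g) (h : e.DefinedAt X) :
    e.DefinedAt (fun i => φ (X i)) ∧ e.eval (fun i => φ (X i)) = φ (e.eval X) := by
  induction e with
  | scalar c => exact ⟨trivial, by simp [eval]⟩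
  | var i => exact ⟨trivial, rfl⟩
  | add a b iha ihb =>
    obtain ⟨ha, hb⟩ := h
    exact ⟨⟨(iha ha).1, (ihb hb).1⟩, by simp [eval, (iha ha).2, (ihb hb).2]⟩
  | mul a b iha ihb =>
    obtain ⟨ha, hb⟩ := h
    exact ⟨⟨(iha ha).1, (ihb hb).1⟩, by simp [eval, (iha ha).2, (ihb hb).2]⟩
  | inv a iha =>
    obtain ⟨ha, hu⟩ := h
    have h1 := (iha ha).2
    refine ⟨⟨(iha ha).1, ?_⟩, ?_⟩
    · rw [h1]; exact hu.map φ
    · simp only [eval, h1]
      obtain ⟨u, hu⟩ := hu
      rw [← hu, Ring.inverse_unit]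
      have : (φ (u : R)) = ((Units.map (φ : R →* S) u : Sˣ) : S) := rfl
      rw [this, Ring.inverse_unit]
      rfl

variable {ι : Type} [Fintype ι] [DecidableEq ι]

/-- Spreading out: an expression that is defined at one specialisation of a tuple of matrices
over a commutative algebra `A` is defined at all specialisations at which a certain
denominator `q` is invertible, and its value there is given by a matrix over `A`
divided by `q`. -/
theorem spread {A : Type} [CommRing A] [Algebra k A] (X : g → Matrix ι ι A)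
    {B₀ : Type} [Field B₀] [Algebra k B₀] (ψ₀ : A →ₐ[k] B₀) (e : NCExpr k g)
    (h : e.DefinedAt (fun i => ψ₀.mapMatrix (X i))) :
    ∃ (q : A) (N : Matrix ι ι A), ψ₀ q ≠ 0 ∧
      ∀ (B : Type) [CommRing B] [Algebra k B] (ψ : A →ₐ[k] B), IsUnit (ψ q) →
        e.DefinedAt (fun i => ψ.mapMatrix (X i)) ∧
        ψ q • e.eval (fun i => ψ.mapMatrix (X i)) = ψ.mapMatrix N := by
  induction e with
  | scalar c =>
    refine ⟨1, algebraMap k _ c, by simp, ?_⟩
    intro B _ _ ψ _
    refine ⟨trivial, ?_⟩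
    simp [eval]
  | var i =>
    refine ⟨1, X i, by simp, ?_⟩
    intro B _ _ ψ _
    exact ⟨trivial, by simp [eval]⟩
  | add a b iha ihb =>
    obtain ⟨ha, hb⟩ := h
    obtain ⟨q1, N1, hq1, H1⟩ := iha ha
    obtain ⟨q2, N2, hq2, H2⟩ := ihb hb
    refine ⟨q1 * q2, q2 • N1 + q1 • N2, ?_, ?_⟩
    · rw [map_mul]; exact mul_ne_zero hq1 hq2
    · intro B _ _ ψ hψ
      rw [map_mul] at hψ
      have u1 : IsUnit (ψ q1) := isUnit_of_mul_isUnit_left hψ
      have u2 : IsUnit (ψ q2) := isUnit_of_mul_isUnit_right hψ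
      obtain ⟨d1, e1⟩ := H1 B ψ u1
      obtain ⟨d2, e2⟩ := H2 B ψ u2
      refine ⟨⟨d1, d2⟩, ?_⟩
      have m1 : ψ.mapMatrix (q2 • N1) = ψ q2 • ψ.mapMatrix N1 := by
        ext i j; simp
      have m2 : ψ.mapMatrix (q1 • N2) = ψ q1 • ψ.mapMatrix N2 := by
        ext i j; simp
      rw [map_add, m1, m2, ← e1, ← e2, map_mul]
      simp only [eval, smul_add, smul_smul]
      rw [mul_comm (ψ q2) (ψ q1)]
  | mul a b iha ihb =>
    obtain ⟨ha, hb⟩ := h
    obtain ⟨q1, N1, hq1, H1⟩ := iha ha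
    obtain ⟨q2, N2, hq2, H2⟩ := ihb hb
    refine ⟨q1 * q2, N1 * N2, ?_, ?_⟩
    · rw [map_mul]; exact mul_ne_zero hq1 hq2
    · intro B _ _ ψ hψ
      rw [map_mul] at hψ
      have u1 : IsUnit (ψ q1) := isUnit_of_mul_isUnit_left hψ
      have u2 : IsUnit (ψ q2) := isUnit_of_mul_isUnit_right hψ
      obtain ⟨d1, e1⟩ := H1 B ψ u1
      obtain ⟨d2, e2⟩ := H2 B ψ u2
      refine ⟨⟨d1, d2⟩, ?_⟩
      rw [map_mul, map_mul, ← e1, ← e2]
      simp only [eval]
      rw [smul_mul_assoc, mul_smul_comm, smul_smul]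
  | inv a iha =>
    obtain ⟨ha, hu⟩ := h
    obtain ⟨q, N, hq, H⟩ := iha ha
    have hq' : IsUnit (ψ₀ q) := isUnit_iff_ne_zero.mpr hq
    have e0 := (H B₀ ψ₀ hq').2
    have hNu : IsUnit (ψ₀.mapMatrix N) := by
      rw [← e0]
      obtain ⟨u, hu'⟩ := hq'
      rw [← hu']
      exact (isUnit_smul_iff u _).mpr hu
    have hdet : ψ₀ N.det ≠ 0 := by
      have := (Matrix.isUnit_iff_isUnit_det _).mp hNu
      have h2 : (ψ₀.mapMatrix N).det = ψ₀ N.det := by
        simpa using (AlgHom.map_det ψ₀ N).symm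
      rw [h2] at this
      exact this.ne_zero
    refine ⟨q * N.det, q ^ 2 • N.adjugate, ?_, ?_⟩
    · rw [map_mul]; exact mul_ne_zero hq hdet
    · intro B _ _ ψ hψ
      rw [map_mul] at hψ
      have u1 : IsUnit (ψ q) := isUnit_of_mul_isUnit_left hψ
      have u2 : IsUnit (ψ N.det) := isUnit_of_mul_isUnit_right hψ
      obtain ⟨d1, e1⟩ := H B ψ u1
      have h2 : (ψ.mapMatrix N).det = ψ N.det := by
        simpa using (AlgHom.map_det ψ N).symm
      have hN : IsUnit (ψ.mapMatrix N) := by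
        rw [Matrix.isUnit_iff_isUnit_det, h2]; exact u2
      have hE : IsUnit (a.eval (fun i => ψ.mapMatrix (X i))) := by
        obtain ⟨u, hu'⟩ := u1
        rw [← e1, ← hu'] at hN
        exact (isUnit_smul_iff u _).mp hN
      refine ⟨⟨d1, hE⟩, ?_⟩
      have hadj : ψ.mapMatrix (q ^ 2 • N.adjugate) = (ψ q) ^ 2 • (ψ.mapMatrix N).adjugate := by
        have : ψ.mapMatrix N.adjugate = (ψ.mapMatrix N).adjugate := by
          simpa using AlgHom.map_adjugate ψ N
        rw [← this]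
        ext i j; simp
      rw [hadj]
      simp only [eval]
      set E := a.eval (fun i => ψ.mapMatrix (X i)) with hEdef
      have hcan : E * ((ψ (q * N.det)) • Ring.inverse E)
          = E * ((ψ q) ^ 2 • (ψ.mapMatrix N).adjugate) := by
        rw [mul_smul_comm, Ring.mul_inverse_cancel E hE, mul_smul_comm, sq, mul_smul,
          ← smul_mul_assoc, e1, Matrix.mul_adjugate, h2, map_mul, mul_smul]
      exact (hE.mul_left_cancel hcan)

end NCExpr

end Pool.Agent.Helper84
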