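import Mathlib
import Pool.Agent.Helper84.NCDefs
import Pool.Agent.Helper84.NCSpread
import Pool.Agent.Helper84.NCIdentity

set_option autoImplicit false

namespace Pool.Agent.Helper84

namespace NCExpr

variable {k : Type} [Field k]

/-- subtraction of expressions -/
def sub {g : Type} (a c : NCExpr k g) : NCExpr k g := add a (mul (scalar (-1)) c)

abbrev vx : NCExpr k (Fin 2) := var 0
abbrev vy : NCExpr k (Fin 2) := var 1

/-- `h = x y - y x` -/
def hE : NCExpr k (Fin 2) := sub (mul vx vy) (mul vy vx)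
/-- `g = x^3 + b - y^2` -/
def gE (b : k) : NCExpr k (Fin 2) := sub (add (mul vx (mul vx vx)) (scalar b)) (mul vy vy)
/-- `m = g h^{-1}` -/
def mE (b : k) : NCExpr k (Fin 2) := mul (gE b) (inv hE)
/-- `Lam = m^2 - x - h x h^{-1}` -/
def lamE (b : k) : NCExpr k (Fin 2) :=
  sub (sub (mul (mE b) (mE b)) vx) (mul (mul hE vx) (inv hE))
/-- `Mu = Lam m - m x - y` -/
def muE (b : k) : NCExpr k (Fin 2) :=
  sub (sub (mul (lamE b) (mE b)) (mul (mE b) vx)) vy
/-- product of `Lam - s` over a list -/
def prodE (b : k) : List k → NCExpr k (Fin 2)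
  | [] => scalar 1
  | s :: l => mul (sub (lamE b) (scalar s)) (prodE b l)
/-- `r = Lam + (prod (Lam - s))^{-1}` -/
def rE (b : k) (S : List k) : NCExpr k (Fin 2) := add (lamE b) (inv (prodE b S))

variable {R : Type} [Ring R] [Algebra k R]

theorem eval_sub {g : Type} (X : g → R) (a c : NCExpr k g) :
    (sub a c).eval X = a.eval X - c.eval X := by
  simp [sub, eval, sub_eq_add_neg]

theorem defined_sub {g : Type} (X : g → R) (a c : NCExpr k g) :
    (sub a c).DefinedAt X ↔ a.DefinedAt X ∧ c.DefinedAt X := by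
  simp [sub, DefinedAt]

theorem defined_hE (X : Fin 2 → R) : (hE : NCExpr k (Fin 2)).DefinedAt X := by
  simp [hE, defined_sub, DefinedAt]

theorem defined_gE (X : Fin 2 → R) (b : k) : (gE b).DefinedAt X := by
  simp [gE, defined_sub, DefinedAt]

theorem eval_hE (X : Fin 2 → R) :
    (hE : NCExpr k (Fin 2)).eval X = X 0 * X 1 - X 1 * X 0 := by
  simp [hE, eval_sub, eval]

theorem eval_gE (X : Fin 2 → R) (b : k) :
    (gE b).eval X = X 0 ^ 3 + algebraMap k R b - X 1 ^ 2 := by
  simp only [gE, eval_sub, eval]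
  noncomm_ring

theorem defined_mE (X : Fin 2 → R) (b : k) :
    (mE b).DefinedAt X ↔ IsUnit (X 0 * X 1 - X 1 * X 0) := by
  simp [mE, DefinedAt, defined_gE, defined_hE, eval_hE]

theorem defined_lamE (X : Fin 2 → R) (b : k) :
    (lamE b).DefinedAt X ↔ IsUnit (X 0 * X 1 - X 1 * X 0) := by
  simp [lamE, DefinedAt, defined_sub, defined_mE, defined_hE, eval_hE]

theorem defined_muE (X : Fin 2 → R) (b : k) :
    (muE b).DefinedAt X ↔ IsUnit (X 0 * X 1 - X 1 * X 0) := by
  simp [muE, DefinedAt, defined_sub, defined_lamE, defined_mE]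

/-- The two rational expressions `Lam` and `Mu` take commuting values on the curve. -/
theorem lam_mu (X : Fin 2 → R) (b : k) (hu : IsUnit (X 0 * X 1 - X 1 * X 0)) :
    (lamE b).eval X * (muE b).eval X = (muE b).eval X * (lamE b).eval X ∧
    (muE b).eval X ^ 2 = (lamE b).eval X ^ 3 + algebraMap k R b := by
  set x := X 0 with hx
  set y := X 1 with hy
  set h := x * y - y * x with hh
  set hi := Ring.inverse h with hhi
  have h1 : h * hi = 1 := Ring.mul_inverse_cancel h hu
  have h2 : hi * h = 1 := Ring.inverse_mul_cancel h hu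
  have hm : (mE b).eval X = (x ^ 3 + algebraMap k R b - y ^ 2) * hi := by
    simp only [mE, eval, eval_gE, eval_hE]
    rfl
  obtain ⟨r1, r2, r3, r4, r5⟩ := nc_relations (x := x) (y := y) (h := h) (hi := hi)
    (b := algebraMap k R b) hh h1 h2
    (Algebra.commutes b x) (Algebra.commutes b y)
    ((mE b).eval X) (h * x * hi) (h * y * hi) hm rfl rfl
  have hL : (lamE b).eval X = (mE b).eval X ^ 2 - x - h * x * hi := by
    simp only [lamE, eval_sub, eval, eval_hE, sq]
    rfl
  have hM : (muE b).eval X = (lamE b).eval X * (mE b).eval X - (mE b).eval X * x - y := by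
    simp only [muE, eval_sub, eval]
    rfl
  exact ⟨nc_commute r1 r2 r4 r5 hL hM, nc_curve r1 r2 r3 r4 r5 hL hM⟩

theorem defined_prodE (X : Fin 2 → R) (b : k) (hu : IsUnit (X 0 * X 1 - X 1 * X 0))
    (S : List k) : (prodE b S).DefinedAt X := by
  induction S with
  | nil => simp [prodE, DefinedAt]
  | cons s l ih =>
    simp only [prodE, DefinedAt, defined_sub, defined_lamE]
    exact ⟨⟨hu, trivial⟩, ih⟩

theorem defined_rE (X : Fin 2 → R) (b : k) (S : List k) :
    (rE b S).DefinedAt X ↔
      IsUnit (X 0 * X 1 - X 1 * X 0) ∧ IsUnit ((prodE b S).eval X) := by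
  simp only [rE, DefinedAt, defined_lamE]
  constructor
  · rintro ⟨h1, _, h2⟩; exact ⟨h1, h2⟩
  · rintro ⟨h1, h2⟩; exact ⟨h1, defined_prodE X b h1 S, h2⟩

/-- `prodE` is a polynomial in `Lam`. -/
theorem eval_prodE (X : Fin 2 → R) (b : k) (S : List k) :
    (prodE b S).eval X = Polynomial.aeval ((lamE b).eval X)
      (S.map fun s => (Polynomial.X - Polynomial.C s : Polynomial k)).prod := by
  induction S with
  | nil => simp [prodE, eval]
  | cons s l ih =>
    simp [prodE, eval, eval_sub, ih]

end NCExpr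

end Pool.Agent.Helper84
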