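import Mathlib
import Pool.Agent.Helper84.NCDefs
import Pool.Agent.Helper84.NCSpread

set_option autoImplicit false

namespace Pool.Agent.Helper84

namespace NCExpr

variable {k : Type} [Field k] {g : Type}

section path

variable {K : Type} [Field K] [Algebra k K] {ι : Type} [Fintype ι] [DecidableEq ι]

/-- The straight line between two tuples of matrices, over the polynomial ring. -/
noncomputable def path (X₀ X₁ : g → Matrix ι ι K) (i : g) : Matrix ι ι (Polynomial K) :=
  (1 - Polynomial.X : Polynomial K) • (X₀ i).map Polynomial.C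
    + (Polynomial.X : Polynomial K) • (X₁ i).map Polynomial.C

/-- evaluation of polynomials at a point, as a `k`-algebra homomorphism -/
noncomputable def evAt (k : Type) [Field k] {K : Type} [Field K] [Algebra k K] (c : K) :
    Polynomial K →ₐ[k] K :=
  (Polynomial.aeval (R := K) c).restrictScalars k

theorem evAt_apply (c : K) (p : Polynomial K) : evAt k c p = p.eval c := by
  simp [evAt, Polynomial.aeval_def, Polynomial.eval₂_eq_eval_map]

theorem path_at (X₀ X₁ : g → Matrix ι ι K) (c : K) (i : g) :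
    (evAt k c).mapMatrix (path X₀ X₁ i) = (1 - c) • X₀ i + c • X₁ i := by
  ext a b
  simp only [path, AlgHom.mapMatrix_apply, Matrix.map_apply, Matrix.add_apply,
    Matrix.smul_apply, smul_eq_mul, evAt_apply]
  simp
  ring

theorem path_zero (X₀ X₁ : g → Matrix ι ι K) :
    (fun i => (evAt k (0 : K)).mapMatrix (path X₀ X₁ i)) = X₀ := by
  funext i; rw [path_at]; simp

theorem path_one (X₀ X₁ : g → Matrix ι ι K) :
    (fun i => (evAt k (1 : K)).mapMatrix (path X₀ X₁ i)) = X₁ := by
  funext i; rw [path_at]; simp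

/-- Two expressions that agree on matrices over `K` indexed by `ι`, one defined at `X₀` and one
defined at `X₁`, have proportional values along the path. -/
theorem path_agree [Infinite K] (e e' : NCExpr k g) (X₀ X₁ : g → Matrix ι ι K)
    (h₀ : e'.DefinedAt X₀) (h₁ : e.DefinedAt X₁)
    (hs : ∀ X : g → Matrix ι ι K, e.DefinedAt X → e'.DefinedAt X → e.eval X = e'.eval X) :
    ∃ (q q' : Polynomial K) (N N' : Matrix ι ι (Polynomial K)),
      q'.eval 0 ≠ 0 ∧ q.eval 1 ≠ 0 ∧ q • N' = q' • N ∧
      (∀ (B : Type) [CommRing B] [Algebra k B] (ψ : Polynomial K →ₐ[k] B), IsUnit (ψ q) →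
        e.DefinedAt (fun i => ψ.mapMatrix (path X₀ X₁ i)) ∧
        ψ q • e.eval (fun i => ψ.mapMatrix (path X₀ X₁ i)) = ψ.mapMatrix N) ∧
      (∀ (B : Type) [CommRing B] [Algebra k B] (ψ : Polynomial K →ₐ[k] B), IsUnit (ψ q') →
        e'.DefinedAt (fun i => ψ.mapMatrix (path X₀ X₁ i)) ∧
        ψ q' • e'.eval (fun i => ψ.mapMatrix (path X₀ X₁ i)) = ψ.mapMatrix N') := by
  have h₀' : e'.DefinedAt (fun i => (evAt k (0 : K)).mapMatrix (path X₀ X₁ i)) := by
    rw [path_zero]; exact h₀
  have h₁' : e.DefinedAt (fun i => (evAt k (1 : K)).mapMatrix (path X₀ X₁ i)) := by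
    rw [path_one]; exact h₁
  obtain ⟨q', N', hq', H'⟩ := spread (path X₀ X₁) (evAt k (0 : K)) e' h₀'
  obtain ⟨q, N, hq, H⟩ := spread (path X₀ X₁) (evAt k (1 : K)) e h₁'
  rw [evAt_apply] at hq hq'
  refine ⟨q, q', N, N', hq', hq, ?_, H, H'⟩
  have hq0 : q ≠ 0 := by rintro rfl; simp at hq
  have hq0' : q' ≠ 0 := by rintro rfl; simp at hq'
  have key : ∀ c : K, q.eval c ≠ 0 → q'.eval c ≠ 0 → ∀ a b,
      (q * N' a b - q' * N a b).eval c = 0 := by
    intro c hc hc' a b
    obtain ⟨d1, e1⟩ := H K (evAt k c) (by rw [evAt_apply]; exact isUnit_iff_ne_zero.mpr hc)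
    obtain ⟨d2, e2⟩ := H' K (evAt k c) (by rw [evAt_apply]; exact isUnit_iff_ne_zero.mpr hc')
    have hE := hs _ d1 d2
    rw [evAt_apply] at e1 e2
    have e3 : q'.eval c • ((evAt k c).mapMatrix N) = q.eval c • ((evAt k c).mapMatrix N') := by
      rw [← e1, ← e2, hE, smul_smul, smul_smul, mul_comm]
    have e4 := congrFun (congrFun e3 a) b
    simp only [Matrix.smul_apply, AlgHom.mapMatrix_apply, Matrix.map_apply, evAt_apply,
      smul_eq_mul] at e4
    rw [Polynomial.eval_sub, Polynomial.eval_mul, Polynomial.eval_mul, e4, sub_self]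
  ext1 a b
  have : (q * N' a b - q' * N a b) * (q * q') = 0 := by
    apply Polynomial.funext
    intro c
    rw [Polynomial.eval_mul, Polynomial.eval_mul, Polynomial.eval_zero]
    by_cases hc : q.eval c = 0
    · simp [hc]
    · by_cases hc' : q'.eval c = 0
      · simp [hc']
      · rw [key c hc hc' a b, zero_mul]
  rcases mul_eq_zero.mp this with h | h
  · exact sub_eq_zero.mp h
  · exact absurd h (mul_ne_zero hq0 hq0')

end path

section blocks

variable {K : Type} [Field K] [Algebra k K] {α β : Type} [Fintype α] [DecidableEq α]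
  [Fintype β] [DecidableEq β]

theorem isUnit_fromBlocks {a : Matrix α α K} {b : Matrix β β K} (ha : IsUnit a)
    (hb : IsUnit b) : IsUnit (Matrix.fromBlocks a 0 0 b) ∧
      Ring.inverse (Matrix.fromBlocks a 0 0 b)
        = Matrix.fromBlocks (Ring.inverse a) 0 0 (Ring.inverse b) := by
  have h1 : Matrix.fromBlocks a 0 0 b
      * Matrix.fromBlocks (Ring.inverse a) 0 0 (Ring.inverse b) = 1 := by
    rw [Matrix.fromBlocks_multiply]
    simp [Ring.mul_inverse_cancel _ ha, Ring.mul_inverse_cancel _ hb]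
  have h2 : Matrix.fromBlocks (Ring.inverse a) 0 0 (Ring.inverse b)
      * Matrix.fromBlocks a 0 0 b = 1 := by
    rw [Matrix.fromBlocks_multiply]
    simp [Ring.inverse_mul_cancel _ ha, Ring.inverse_mul_cancel _ hb]
  let u : (Matrix (α ⊕ β) (α ⊕ β) K)ˣ := ⟨_, _, h1, h2⟩
  exact ⟨⟨u, rfl⟩, Ring.inverse_unit u⟩

/-- direct sums -/
theorem eval_fromBlocks (X : g → Matrix α α K) (Y : g → Matrix β β K) (e : NCExpr k g)
    (hX : e.DefinedAt X) (hY : e.DefinedAt Y) :
    e.DefinedAt (fun i => Matrix.fromBlocks (X i) 0 0 (Y i)) ∧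
    e.eval (fun i => Matrix.fromBlocks (X i) 0 0 (Y i))
      = Matrix.fromBlocks (e.eval X) 0 0 (e.eval Y) := by
  induction e with
  | scalar c =>
    refine ⟨trivial, ?_⟩
    simp only [eval, Matrix.algebraMap_eq_diagonal]
    ext i j
    rcases i with i | i <;> rcases j with j | j <;>
      simp [Matrix.diagonal_apply, Matrix.fromBlocks]
  | var i => exact ⟨trivial, rfl⟩
  | add a b iha ihb =>
    refine ⟨⟨(iha hX.1 hY.1).1, (ihb hX.2 hY.2).1⟩, ?_⟩
    simp [eval, (iha hX.1 hY.1).2, (ihb hX.2 hY.2).2, Matrix.fromBlocks_add]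
  | mul a b iha ihb =>
    refine ⟨⟨(iha hX.1 hY.1).1, (ihb hX.2 hY.2).1⟩, ?_⟩
    simp [eval, (iha hX.1 hY.1).2, (ihb hX.2 hY.2).2, Matrix.fromBlocks_multiply]
  | inv a iha =>
    have h := iha hX.1 hY.1
    have h2 := isUnit_fromBlocks hX.2 hY.2
    refine ⟨⟨h.1, ?_⟩, ?_⟩
    · rw [h.2]; exact h2.1
    · simp only [eval]
      rw [h.2, h2.2]

/-- transport along a bijection of index types -/
theorem eval_reindex (f : α ≃ β) (X : g → Matrix α α K) (e : NCExpr k g)
    (hX : e.DefinedAt X) :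
    e.DefinedAt (fun i => Matrix.reindexAlgEquiv k K f (X i)) ∧
    e.eval (fun i => Matrix.reindexAlgEquiv k K f (X i))
      = Matrix.reindexAlgEquiv k K f (e.eval X) :=
  eval_map (Matrix.reindexAlgEquiv k K f : Matrix α α K →ₐ[k] Matrix β β K) X e hX

/-- Agreement on all `Fin n` gives agreement for all finite index types. -/
theorem SameFunction.agree {e e' : NCExpr k g} 
    (h : ∀ (n : ℕ) (X : g → Matrix (Fin n) (Fin n) K),
      e.DefinedAt X → e'.DefinedAt X → e.eval X = e'.eval X)
    (X : g → Matrix α α K) (h1 : e.DefinedAt X) (h2 : e'.DefinedAt X) :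
    e.eval X = e'.eval X := by
  let f := Fintype.equivFin α
  have a1 := eval_reindex f X e h1
  have a2 := eval_reindex f X e' h2
  have := h _ _ a1.1 a2.1
  rw [a1.2, a2.2] at this
  exact (Matrix.reindexAlgEquiv k K f).injective this

end blocks

end NCExpr

end Pool.Agent.Helper84
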