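import Mathlib
import Pool.Agent.Helper84.NCDefs
import Pool.Agent.Helper84.NCExprs
import Pool.Agent.Helper84.NCPath

set_option autoImplicit false

namespace Pool.Agent.Helper84

namespace NCExpr

variable {k : Type} [Field k] {R : Type} [Ring R] [Algebra k R]

theorem ringInverse_eq {h hi : R} (h1 : h * hi = 1) (h2 : hi * h = 1) :
    Ring.inverse h = hi := by
  let u : Rˣ := ⟨h, hi, h1, h2⟩
  exact Ring.inverse_unit u

theorem mE_eval (X : Fin 2 → R) (b : k) (hi : R)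
    (h1 : (X 0 * X 1 - X 1 * X 0) * hi = 1) (h2 : hi * (X 0 * X 1 - X 1 * X 0) = 1) :
    (mE b).eval X = (X 0 ^ 3 + algebraMap k R b - X 1 ^ 2) * hi := by
  simp only [mE, eval, eval_gE, eval_hE]
  rw [ringInverse_eq h1 h2]

theorem lamE_eval (X : Fin 2 → R) (b : k) (hi : R)
    (h1 : (X 0 * X 1 - X 1 * X 0) * hi = 1) (h2 : hi * (X 0 * X 1 - X 1 * X 0) = 1) :
    (lamE b).eval X = (mE b).eval X * (mE b).eval X - X 0
      - (X 0 * X 1 - X 1 * X 0) * X 0 * hi := by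
  simp only [lamE, eval_sub, eval, eval_hE]
  rw [ringInverse_eq h1 h2]

theorem muE_eval (X : Fin 2 → R) (b : k) :
    (muE b).eval X = (lamE b).eval X * (mE b).eval X - (mE b).eval X * X 0 - X 1 := by
  simp only [muE, eval_sub, eval]

theorem isUnit_prodE (X : Fin 2 → R) (b : k) (S : List k)
    (h : ∀ s ∈ S, IsUnit ((lamE b).eval X - algebraMap k R s)) :
    IsUnit ((prodE b S).eval X) := by
  induction S with
  | nil => simp [prodE, eval]
  | cons s l ih =>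
    simp only [prodE, eval, eval_sub]
    exact (h s (by simp)).mul (ih (fun t ht => h t (by simp [ht])))

variable {K : Type} [Field K] [Algebra k K]

/-- the two-by-two example -/
def X2 (c : K) : Fin 2 → Matrix (Fin 2) (Fin 2) K := ![!![0, 0; 0, 1], !![0, c; c, 0]]

theorem X2_spec (b : k) (c : K) (hc : c ≠ 0) :
    IsUnit (X2 c 0 * X2 c 1 - X2 c 1 * X2 c 0) ∧
    (lamE b).eval (X2 c) = (-(algebraMap k K b - c ^ 2) * (1 + algebraMap k K b - c ^ 2) / c ^ 2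
      - 1) • (1 : Matrix (Fin 2) (Fin 2) K) := by
  set B := algebraMap k K b with hB
  have hh : X2 c 0 * X2 c 1 - X2 c 1 * X2 c 0 = !![0, -c; c, 0] := by
    ext i j; fin_cases i <;> fin_cases j <;> simp [X2, Matrix.mul_apply, Fin.sum_univ_two]
  have h1 : (X2 c 0 * X2 c 1 - X2 c 1 * X2 c 0) * !![0, c⁻¹; -c⁻¹, 0] = 1 := by
    rw [hh]
    ext i j; fin_cases i <;> fin_cases j <;> simp [Matrix.mul_apply, Fin.sum_univ_two, hc]
  have h2 : !![0, c⁻¹; -c⁻¹, 0] * (X2 c 0 * X2 c 1 - X2 c 1 * X2 c 0) = 1 := by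
    rw [hh]
    ext i j; fin_cases i <;> fin_cases j <;> simp [Matrix.mul_apply, Fin.sum_univ_two, hc]
  refine ⟨⟨⟨_, _, h1, h2⟩, rfl⟩, ?_⟩
  have hm : (mE b).eval (X2 c) = !![0, (B - c ^ 2) / c; -(1 + B - c ^ 2) / c, 0] := by
    rw [mE_eval _ _ _ h1 h2, Matrix.algebraMap_eq_diagonal]
    ext i j; fin_cases i <;> fin_cases j <;>
      simp [X2, Matrix.mul_apply, Fin.sum_univ_two, pow_succ, ← hB] <;> field_simp <;> ring
  rw [lamE_eval _ _ _ h1 h2, hm, hh]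
  ext i j; fin_cases i <;> fin_cases j <;>
    simp [X2, Matrix.mul_apply, Fin.sum_univ_two] <;> field_simp <;> ring

/-- the three-by-three example -/
def X3 (c : K) : Fin 2 → Matrix (Fin 3) (Fin 3) K :=
  ![!![0, 0, 0; 0, 1, 0; 0, 0, -1], !![0, c, 0; 0, 0, c; c, 0, 0]]

theorem X3_spec (h20 : (2 : K) ≠ 0) (b : k) (c : K) (hc : c ≠ 0) :
    IsUnit (X3 c 0 * X3 c 1 - X3 c 1 * X3 c 0) ∧
    (lamE b).eval (X3 c) =
      !![-(1 + algebraMap k K b) / 2,
          -(algebraMap k K b * (algebraMap k K b - 1)) / (2 * c ^ 2), -c ^ 2 / 2;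
        c ^ 2, algebraMap k K b, algebraMap k K b * (1 + algebraMap k K b) / c ^ 2;
        -((algebraMap k K b) ^ 2 - 1) / (2 * c ^ 2), -c ^ 2 / 2, (1 - algebraMap k K b) / 2] := by
  set B := algebraMap k K b with hB
  have hh : X3 c 0 * X3 c 1 - X3 c 1 * X3 c 0 = !![0, -c, 0; 0, 0, 2 * c; -c, 0, 0] := by
    ext i j; fin_cases i <;> fin_cases j <;> simp [X3]
    ring
  have h1 : (X3 c 0 * X3 c 1 - X3 c 1 * X3 c 0)
      * !![0, 0, -c⁻¹; -c⁻¹, 0, 0; 0, (2 * c)⁻¹, 0] = 1 := by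
    rw [hh]
    ext i j; fin_cases i <;> fin_cases j <;>
      simp [Matrix.mul_apply, Fin.sum_univ_three, hc]
    field_simp
  have h2 : !![0, 0, -c⁻¹; -c⁻¹, 0, 0; 0, (2 * c)⁻¹, 0]
      * (X3 c 0 * X3 c 1 - X3 c 1 * X3 c 0) = 1 := by
    rw [hh]
    ext i j; fin_cases i <;> fin_cases j <;>
      simp [Matrix.mul_apply, Fin.sum_univ_three, hc]
    field_simp
  refine ⟨⟨⟨_, _, h1, h2⟩, rfl⟩, ?_⟩
  have hm : (mE b).eval (X3 c) = !![0, -c / 2, -B / c; -(1 + B) / c, 0, c;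
      c, (B - 1) / (2 * c), 0] := by
    rw [mE_eval _ _ _ h1 h2, Matrix.algebraMap_eq_diagonal]
    ext i j; fin_cases i <;> fin_cases j <;>
      simp [X3, Matrix.mul_apply, Fin.sum_univ_three, pow_succ, ← hB] <;> field_simp <;> ring
  rw [lamE_eval _ _ _ h1 h2, hm, hh]
  ext i j; fin_cases i <;> fin_cases j <;>
    simp [X3, Matrix.mul_apply, Fin.sum_univ_three] <;> field_simp <;> ring

theorem X3_det (h20 : (2 : K) ≠ 0) (b : k) (s : K) : ∃ γ : K, ∀ c : K, c ≠ 0 →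
      4 * c ^ 6 * ((lamE b).eval (X3 c) - s • (1 : Matrix (Fin 3) (Fin 3) K)).det
        = c ^ 12 + γ * c ^ 6 + (algebraMap k K b) ^ 2 * ((algebraMap k K b) ^ 2 - 1) ^ 2 := by
  set B := algebraMap k K b with hB
  refine ⟨4 * ((-(1 + B) / 2 - s) * (B - s) * ((1 - B) / 2 - s)
    + (-(1 + B) / 2 - s) * B * (1 + B) / 2 - (B - s) * (B ^ 2 - 1) / 4
    + ((1 - B) / 2 - s) * B * (B - 1) / 2), ?_⟩
  intro c hc
  have h40 : (4 : K) ≠ 0 := by
    have : (4 : K) = 2 * 2 := by norm_num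
    rw [this]; exact mul_ne_zero h20 h20
  rw [(X3_spec h20 b c hc).2, Matrix.det_fin_three]
  simp [← hB]
  field_simp
  ring

end NCExpr

end Pool.Agent.Helper84
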