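import Mathlib

set_option autoImplicit false

namespace Pool.Agent.Helper84

open PowerSeries in
instance powerSeries_isAdicComplete (K : Type) [Field K] :
    IsAdicComplete (Ideal.span {(PowerSeries.X : K⟦X⟧)}) K⟦X⟧ where
  haus' := by
    intro x hx
    ext n
    have h := hx (n + 1)
    rw [smul_eq_mul, Ideal.mul_top, Ideal.span_singleton_pow, SModEq.zero,
      Ideal.mem_span_singleton, PowerSeries.X_pow_dvd_iff] at h
    simpa using h n (Nat.lt_succ_self n)
  prec' := by
    intro f hf
    refine ⟨PowerSeries.mk fun n => PowerSeries.coeff n (f (n + 1)), ?_⟩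
    intro n
    rw [smul_eq_mul, Ideal.mul_top, Ideal.span_singleton_pow, SModEq.sub_mem,
      Ideal.mem_span_singleton, PowerSeries.X_pow_dvd_iff]
    intro m hm
    rw [map_sub, PowerSeries.coeff_mk, sub_eq_zero]
    have h := hf (show m + 1 ≤ n from hm)
    rw [smul_eq_mul, Ideal.mul_top, Ideal.span_singleton_pow, SModEq.sub_mem,
      Ideal.mem_span_singleton, PowerSeries.X_pow_dvd_iff] at h
    have := h m (Nat.lt_succ_self m)
    rw [map_sub, sub_eq_zero] at this
    exact this.symm

open PowerSeries Polynomial in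
/-- A simple root of the reduction of a monic polynomial over `K⟦X⟧` lifts to a root. -/
theorem exists_lift_root {K : Type} [Field K] (P : Polynomial K⟦X⟧) (hP : P.Monic) (r₀ : K)
    (hr : (P.map (PowerSeries.constantCoeff (R := K))).rootMultiplicity r₀ = 1) :
    ∃ r : K⟦X⟧, P.IsRoot r ∧ PowerSeries.constantCoeff r = r₀ ∧
      IsUnit ((Polynomial.derivative P).eval r) := by
  set c : K⟦X⟧ →+* K := PowerSeries.constantCoeff (R := K) with hc
  have hPm : (P.map c) ≠ 0 := (hP.map c).ne_zero
  have hroot : (P.map c).IsRoot r₀ := by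
    rw [← Polynomial.rootMultiplicity_pos hPm, hr]; exact one_pos
  have hder : ¬ ((Polynomial.derivative (P.map c)).IsRoot r₀) := by
    intro h
    have := (Polynomial.one_lt_rootMultiplicity_iff_isRoot hPm).mpr ⟨hroot, h⟩
    omega
  have hmem : ∀ s : K⟦X⟧, s ∈ Ideal.span {(PowerSeries.X : K⟦X⟧)} ↔ c s = 0 := by
    intro s
    rw [Ideal.mem_span_singleton, PowerSeries.X_dvd_iff]
  have hunit : ∀ s : K⟦X⟧, IsUnit s ↔ c s ≠ 0 := by
    intro s
    rw [PowerSeries.isUnit_iff_constantCoeff, isUnit_iff_ne_zero]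
  have hev : ∀ (Q : Polynomial K⟦X⟧) (s : K⟦X⟧), c (Q.eval s) = (Q.map c).eval (c s) := by
    intro Q s
    rw [Polynomial.eval_map, Polynomial.eval₂_hom]
  have hcC : c (PowerSeries.C r₀) = r₀ := by simp [hc]
  have H := HenselianRing.is_henselian (R := K⟦X⟧) (I := Ideal.span {(PowerSeries.X : K⟦X⟧)})
    P hP (PowerSeries.C r₀)
    (by rw [hmem, hev, hcC]; exact hroot)
    (by
      apply IsUnit.map
      rw [hunit, hev, ← Polynomial.derivative_map, hcC]
      exact hder)
  obtain ⟨a, ha, hmem'⟩ := H
  have hca : c a = r₀ := by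
    rw [hmem, map_sub, hcC, sub_eq_zero] at hmem'
    exact hmem'
  refine ⟨a, ha, hca, ?_⟩
  rw [hunit, hev, ← Polynomial.derivative_map, hca]
  exact hder

open Polynomial in
/-- If `r` is a root of the characteristic polynomial of `A` that is not a root of its
derivative, then there is an eigenvector that is an eigenvector of everything commuting
with `A`. -/
theorem exists_common_eigenvector {F : Type} [Field F] {ι : Type} [Fintype ι] [DecidableEq ι]
    (A : Matrix ι ι F) (r : F) (h0 : A.charpoly.IsRoot r)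
    (h1 : ¬ (Polynomial.derivative A.charpoly).IsRoot r) :
    ∃ v : ι → F, v ≠ 0 ∧ A.mulVec v = r • v ∧
      ∀ T : Matrix ι ι F, A * T = T * A → ∃ t : F, T.mulVec v = t • v := by
  have hne : A.charpoly ≠ 0 := A.charpoly_monic.ne_zero
  have hmult : A.charpoly.rootMultiplicity r = 1 := by
    have hpos := (Polynomial.rootMultiplicity_pos hne).mpr h0
    have : ¬ 1 < A.charpoly.rootMultiplicity r := by
      intro h
      exact h1 ((Polynomial.one_lt_rootMultiplicity_iff_isRoot hne).mp h).2
    omega
  set φ : Module.End F (ι → F) := Matrix.toLin' A with hφ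
  have hch : φ.charpoly = A.charpoly := by
    rw [hφ, ← LinearMap.charpoly_toMatrix φ (Pi.basisFun F ι)]
    congr 1
    exact LinearMap.toMatrix'_toLin' A
  have hfin : Module.finrank F (φ.eigenspace r) ≤ 1 := by
    have := LinearMap.finrank_eigenspace_le φ r
    rw [hch, hmult] at this
    exact this
  have hev : φ.HasEigenvalue r := by
    rw [Module.End.hasEigenvalue_iff_isRoot_charpoly, hch]
    exact h0
  obtain ⟨v, hv⟩ := hev.exists_hasEigenvector
  refine ⟨v, hv.2, ?_, ?_⟩
  · have := hv.apply_eq_smul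
    simpa [hφ] using this
  · intro T hT
    have hTv : T.mulVec v ∈ φ.eigenspace r := by
      rw [Module.End.mem_eigenspace_iff, hφ, Matrix.toLin'_apply, Matrix.mulVec_mulVec, hT,
        ← Matrix.mulVec_mulVec]
      have := hv.apply_eq_smul
      rw [hφ, Matrix.toLin'_apply] at this
      rw [this, Matrix.mulVec_smul]
    have hle := (finrank_le_one_iff (K := F) (V := φ.eigenspace r)).mp hfin
    obtain ⟨w, hw⟩ := hle
    obtain ⟨c, hc⟩ := hw ⟨v, hv.1⟩
    obtain ⟨d, hd⟩ := hw ⟨T.mulVec v, hTv⟩
    have hc' : c • (w : ι → F) = v := by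
      have := congrArg Subtype.val hc
      simpa using this
    have hd' : d • (w : ι → F) = T.mulVec v := by
      have := congrArg Subtype.val hd
      simpa using this
    have hcne : c ≠ 0 := by
      rintro rfl
      rw [zero_smul] at hc'
      exact hv.2 hc'.symm
    refine ⟨d * c⁻¹, ?_⟩
    rw [← hd', ← hc', smul_smul, mul_assoc, inv_mul_cancel₀ hcne, mul_one]

end Pool.Agent.Helper84
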