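import Mathlib
import Pool.Agent.Helper84.NCDefs
import Pool.Agent.Helper84.NCSpread
import Pool.Agent.Helper84.NCSeries
import Pool.Agent.Helper84.NCExprs
import Pool.Agent.Helper84.NCPath
import Pool.Agent.Helper84.NCArith

set_option autoImplicit false

namespace Pool.Agent.Helper84

open NCExpr

/-- constant coefficient as an algebra homomorphism -/
noncomputable def ccHom (k : Type) [Field k] (K : Type) [Field K] [Algebra k K] :
    PowerSeries K →ₐ[k] K :=
  { PowerSeries.constantCoeff (R := K) with
    commutes' := by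
      intro r
      have : (algebraMap k (PowerSeries K)) r = PowerSeries.C (algebraMap k K r) :=
        PowerSeries.algebraMap_apply
      simp [this] }

/-- polynomials to power series -/
noncomputable def polyHom (k : Type) [Field k] (K : Type) [Field K] [Algebra k K] :
    Polynomial K →ₐ[k] PowerSeries K :=
  (Polynomial.coeToPowerSeries.algHom K).restrictScalars k

theorem cc_poly {k : Type} [Field k] {K : Type} [Field K] [Algebra k K] (p : Polynomial K) :
    ccHom k K (polyHom k K p) = p.eval 0 := by
  simp [ccHom, polyHom, Polynomial.coeToPowerSeries.algHom_apply, Polynomial.coeff_zero_eq_eval_zero]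

theorem ringInverse_commute {R : Type} [Ring R] {a b : R} (h : Commute a b) :
    Commute a (Ring.inverse b) := by
  by_cases hb : IsUnit b
  · obtain ⟨u, rfl⟩ := hb
    rw [Ring.inverse_unit]
    exact h.units_inv_right
  · rw [Ring.inverse_non_unit b hb]
    exact Commute.zero_right a

theorem monic_listProd {k : Type} [Field k] (S : List k) :
    ((S.map fun s => (Polynomial.X - Polynomial.C s : Polynomial k)).prod).Monic := by
  induction S with
  | nil => exact Polynomial.monic_one
  | cons s l ih =>
    rw [List.map_cons, List.prod_cons]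
    exact (Polynomial.monic_X_sub_C s).mul ih

theorem mulVec_aeval {k F : Type} [Field k] [Field F] [Algebra k F] {ι : Type} [Fintype ι]
    [DecidableEq ι] (T : Matrix ι ι F) (v : ι → F) (t : F) (h : T.mulVec v = t • v)
    (p : Polynomial k) : (Polynomial.aeval T p).mulVec v = (Polynomial.aeval t p) • v := by
  have hpow : ∀ n : ℕ, (T ^ n).mulVec v = (t ^ n) • v := by
    intro n
    induction n with
    | zero => simp
    | succ n ih =>
      rw [pow_succ, ← Matrix.mulVec_mulVec, h, Matrix.mulVec_smul, ih, smul_smul, pow_succ,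
        mul_comm]
  induction p using Polynomial.induction_on with
  | C a =>
    simp only [Polynomial.aeval_C]
    rw [Matrix.algebraMap_eq_diagonal]
    ext i
    simp [Matrix.mulVec_diagonal]
  | add p q hp hq => rw [map_add, map_add, Matrix.add_mulVec, hp, hq, add_smul]
  | monomial n a _ =>
    rw [map_mul, map_mul, Polynomial.aeval_C, Polynomial.aeval_C, map_pow, map_pow,
      Polynomial.aeval_X, Polynomial.aeval_X, ← Matrix.mulVec_mulVec, hpow,
      Matrix.mulVec_smul, Matrix.algebraMap_eq_diagonal]
    ext i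
    simp [Matrix.mulVec_diagonal]
    ring

/-- The main local argument: an expression `e'` representing `r` has no simple eigenvalue
with values in `K`, as soon as all `K`-points of the curve are excluded by `S`. -/
theorem no_simple_root {k : Type} [Field k] {K : Type} [Field K] [Algebra k K] [Infinite K]
    {ι : Type} [Fintype ι] [DecidableEq ι] (b : k) (S : List k)
    (hcurve : ∀ l μ : K, μ ^ 2 = l ^ 3 + algebraMap k K b → ∃ s ∈ S, l = algebraMap k K s)
    (e' : NCExpr k (Fin 2))
    (hs : ∀ X : Fin 2 → Matrix ι ι K, (rE b S).DefinedAt X → e'.DefinedAt X →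
      (rE b S).eval X = e'.eval X)
    (X₀ X₁ : Fin 2 → Matrix ι ι K) (h₀ : e'.DefinedAt X₀) (h₁ : (rE b S).DefinedAt X₁)
    (c : K) : (e'.eval X₀).charpoly.rootMultiplicity c ≠ 1 := by
  intro hmult
  obtain ⟨q, q', N, N', hq', hq, hNN, H, H'⟩ := path_agree (rE b S) e' X₀ X₁ h₀ h₁ hs
  set O := PowerSeries K with hO
  set F := FractionRing O with hF
  set ψO : Polynomial K →ₐ[k] O := polyHom k K with hψO
  set ψF : Polynomial K →ₐ[k] F := (IsScalarTower.toAlgHom k O F).comp ψO with hψF
  have hinj : Function.Injective ψF := by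
    have h1 : Function.Injective (IsScalarTower.toAlgHom k O F) := IsFractionRing.injective O F
    have h2 : Function.Injective ψO := by
      intro p p' h
      have : (Polynomial.coeToPowerSeries.algHom K) p = (Polynomial.coeToPowerSeries.algHom K) p' := h
      simp only [Polynomial.coeToPowerSeries.algHom_apply] at this
      simpa using this
    exact h1.comp h2
  -- definedness over the power series ring
  have hq'0 : q' ≠ 0 := by rintro rfl; simp at hq'
  have hq0 : q ≠ 0 := by rintro rfl; simp at hq
  have huO : IsUnit (ψO q') := by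
    rw [PowerSeries.isUnit_iff_constantCoeff, isUnit_iff_ne_zero]
    have : PowerSeries.constantCoeff (ψO q') = q'.eval 0 := cc_poly (k := k) q'
    rw [this]; exact hq'
  obtain ⟨dO, eO⟩ := H' O ψO huO
  set RO : Matrix ι ι O := e'.eval (fun i => ψO.mapMatrix (path X₀ X₁ i)) with hRO
  -- reduction
  have hred : (ccHom k K).mapMatrix RO = e'.eval X₀ := by
    have := (eval_map ((ccHom k K).mapMatrix : Matrix ι ι O →ₐ[k] Matrix ι ι K)
      (fun i => ψO.mapMatrix (path X₀ X₁ i)) e' dO).2
    rw [← hRO] at this
    rw [← this]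
    congr 1
    refine Eq.trans ?_ (path_zero (k := k) X₀ X₁)
    funext i
    ext a b'
    simp only [AlgHom.mapMatrix_apply, Matrix.map_apply]
    rw [evAt_apply (k := k)]
    exact (cc_poly (k := k) (K := K) _)
  -- lift of the root
  have hchar : RO.charpoly.map (PowerSeries.constantCoeff (R := K)) = (e'.eval X₀).charpoly := by
    rw [← hred]
    exact (Matrix.charpoly_map RO (PowerSeries.constantCoeff (R := K))).symm
  obtain ⟨r, hr1, hr2, hr3⟩ := exists_lift_root RO.charpoly RO.charpoly_monic c
    (by rw [hchar]; exact hmult)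
  -- pass to the fraction field
  set φ : O →ₐ[k] F := IsScalarTower.toAlgHom k O F with hφ
  have hφinj : Function.Injective φ := IsFractionRing.injective O F
  have hRF := eval_map (φ.mapMatrix : Matrix ι ι O →ₐ[k] Matrix ι ι F)
    (fun i => ψO.mapMatrix (path X₀ X₁ i)) e' dO
  have hXF : (fun i => φ.mapMatrix (ψO.mapMatrix (path X₀ X₁ i)))
      = (fun i => ψF.mapMatrix (path X₀ X₁ i)) := by
    funext i
    ext a b'
    simp [hψF, hφ]
  rw [hXF] at hRF
  obtain ⟨dF, eF⟩ := H F ψF (isUnit_iff_ne_zero.mpr (by
    rw [Ne, map_eq_zero_iff _ hinj]; exact hq0))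
  obtain ⟨dF', eF'⟩ := H' F ψF (isUnit_iff_ne_zero.mpr (by
    rw [Ne, map_eq_zero_iff _ hinj]; exact hq'0))
  set XF : Fin 2 → Matrix ι ι F := fun i => ψF.mapMatrix (path X₀ X₁ i) with hXFdef
  have hagree : (rE b S).eval XF = e'.eval XF := by
    have h1 : ψF q • ψF.mapMatrix N' = ψF q' • ψF.mapMatrix N := by
      have := congrArg (ψF.mapMatrix) hNN
      have m1 : ψF.mapMatrix (q • N') = ψF q • ψF.mapMatrix N' := by ext i j; simp
      have m2 : ψF.mapMatrix (q' • N) = ψF q' • ψF.mapMatrix N := by ext i j; simp
      rwa [m1, m2] at this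
    rw [← eF, ← eF', smul_smul, smul_smul, mul_comm (ψF q')] at h1
    have hne : ψF q * ψF q' ≠ 0 := mul_ne_zero
      (by rw [Ne, map_eq_zero_iff _ hinj]; exact hq0)
      (by rw [Ne, map_eq_zero_iff _ hinj]; exact hq'0)
    have := congrArg (fun M => (ψF q * ψF q')⁻¹ • M) h1
    simp only [smul_smul, inv_mul_cancel₀ hne, one_smul] at this
    exact this.symm
  set RF : Matrix ι ι F := e'.eval XF with hRFdef
  have hRF2 : RF = φ.mapMatrix RO := hRF.2
  have hcharF : RF.charpoly = RO.charpoly.map (φ : O →+* F) := by
    rw [hRF2]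
    exact Matrix.charpoly_map RO (φ : O →+* F)
  have hroot : RF.charpoly.IsRoot (φ r) := by
    have h1 : Polynomial.eval r RO.charpoly = 0 := hr1
    have h2 : (φ : O →+* F) r = φ r := rfl
    rw [hcharF, Polynomial.IsRoot, Polynomial.eval_map, ← h2, Polynomial.eval₂_hom, h1, map_zero]
  have hder : ¬ (Polynomial.derivative RF.charpoly).IsRoot (φ r) := by
    have h2 : (φ : O →+* F) r = φ r := rfl
    rw [hcharF, Polynomial.derivative_map, Polynomial.IsRoot, Polynomial.eval_map, ← h2,
      Polynomial.eval₂_hom]
    exact (hr3.map (φ : O →+* F)).ne_zero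
  obtain ⟨v, hv0, hv1, hv2⟩ := exists_common_eigenvector RF (φ r) hroot hder
  -- structure of `r` at `XF`
  rw [defined_rE] at dF
  obtain ⟨hu, hprod⟩ := dF
  obtain ⟨hcomm, hcrv⟩ := lam_mu XF b hu
  set Lm := (lamE b).eval XF with hLm
  set Mm := (muE b).eval XF with hMm
  set Pm := (prodE b S).eval XF with hPm
  have hPaev : Pm = Polynomial.aeval Lm
      (S.map fun s => (Polynomial.X - Polynomial.C s : Polynomial k)).prod :=
    eval_prodE XF b S
  have hRsum : RF = Lm + Ring.inverse Pm := by
    rw [← hagree]
    simp only [rE, NCExpr.eval]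
    rfl
  have haev : ∀ (T : Matrix ι ι F), Commute T Lm → Commute T Pm := by
    intro T hT
    rw [hPaev]
    generalize (S.map fun s => (Polynomial.X - Polynomial.C s : Polynomial k)).prod = p
    induction p using Polynomial.induction_on with
    | C a => rw [Polynomial.aeval_C]; exact Algebra.commute_algebraMap_right a T
    | add p q hp hq => rw [map_add]; exact hp.add_right hq
    | monomial n a h =>
      rw [map_mul, Polynomial.aeval_C, map_pow, Polynomial.aeval_X]
      exact (Algebra.commute_algebraMap_right a T).mul_right (hT.pow_right _)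
  have hinvc : ∀ (T : Matrix ι ι F), Commute T Lm → Commute T RF := by
    intro T hT
    rw [hRsum]
    refine hT.add_right ?_
    exact ringInverse_commute (haev T hT)
  have hLR : RF * Lm = Lm * RF := (hinvc Lm (Commute.refl _)).eq.symm
  have hMR : RF * Mm = Mm * RF := (hinvc Mm hcomm.symm).eq.symm
  obtain ⟨l, hl⟩ := hv2 Lm hLR
  obtain ⟨μ, hμ⟩ := hv2 Mm hMR
  have hvcancel : ∀ a a' : F, a • v = a' • v → a = a' := by
    intro a a' h
    obtain ⟨i, hi⟩ : ∃ i, v i ≠ 0 := by
      by_contra hcon
      push Not at hcon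
      exact hv0 (funext hcon)
    have := congrFun h i
    simp only [Pi.smul_apply, smul_eq_mul] at this
    exact mul_right_cancel₀ hi this
  set p : Polynomial k :=
    (S.map fun s => (Polynomial.X - Polynomial.C s : Polynomial k)).prod with hp
  have hpmonic : p.Monic := by
    rw [hp]
    exact monic_listProd S
  have eq1 : μ ^ 2 = l ^ 3 + algebraMap k F b := by
    apply hvcancel
    have h1 : (Mm ^ 2).mulVec v = (μ ^ 2) • v := by
      rw [sq, ← Matrix.mulVec_mulVec, hμ, Matrix.mulVec_smul, hμ, smul_smul, sq]
    have h2 := mulVec_aeval Lm v l hl (Polynomial.X ^ 3 + Polynomial.C b : Polynomial k)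
    simp only [map_add, map_pow, Polynomial.aeval_X, Polynomial.aeval_C] at h2
    rw [← h1, hcrv, h2]
  have eq2 : (φ r - l) * Polynomial.aeval l p = 1 := by
    apply hvcancel
    have h1 : (RF - Lm) * Pm = 1 := by
      rw [hRsum, add_sub_cancel_left, Ring.inverse_mul_cancel Pm hprod]
    have h2 : ((RF - Lm) * Pm).mulVec v = ((φ r - l) * Polynomial.aeval l p) • v := by
      rw [← Matrix.mulVec_mulVec, hPaev, mulVec_aeval Lm v l hl p, Matrix.mulVec_smul,
        Matrix.sub_mulVec, hv1, hl, ← sub_smul, smul_smul, mul_comm]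
    rw [← h2, h1, Matrix.one_mulVec, one_smul]
  obtain ⟨l₀, μ₀, e1, e2⟩ := specialise_point b p hpmonic (ccHom k K) r l μ eq1 eq2
  obtain ⟨s, hsS, hls⟩ := hcurve l₀ μ₀ e1
  have hzero : Polynomial.aeval l₀ p = 0 := by
    rw [hls, hp, map_list_prod]
    apply List.prod_eq_zero
    rw [List.map_map, List.mem_map]
    exact ⟨s, hsS, by simp⟩
  rw [hzero, mul_zero] at e2
  exact zero_ne_one e2

end Pool.Agent.Helper84
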