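import Mathlib
import Pool.Agent.Helper84.NCDefs
import Pool.Agent.Helper84.NCExprs
import Pool.Agent.Helper84.NCPath
import Pool.Agent.Helper84.NCBase

set_option autoImplicit false

namespace Pool.Agent.Helper84

namespace NCExpr

variable {k : Type} [Field k] {K : Type} [Field K] [Algebra k K]

/-- a family of three-by-three examples through a given point of the curve -/
def X3E (l m : K) : Fin 2 → Matrix (Fin 3) (Fin 3) K :=
  ![!![0, 0, -2 * m; 0, 0, 1; 0, 1, -l], !![m, l, 1; -(l ^ 2 + 1), m, 0; 0, 0, m]]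

set_option maxHeartbeats 4000000 in
theorem X3E_spec (h20 : (2 : K) ≠ 0) (b : k) (l m : K) (hm : m ≠ 0) (hD : l ^ 2 + 1 ≠ 0)
    (hcurve : m ^ 2 = l ^ 3 + algebraMap k K b) :
    IsUnit (X3E l m 0 * X3E l m 1 - X3E l m 1 * X3E l m 0) ∧
    (lamE b).eval (X3E l m) =
      !![l, -2 / m - 1 / (2 * m * (l ^ 2 + 1)), -2 * m / (l ^ 2 + 1);
        0, 1 / m ^ 2 - l, 1;
        0, -(1 + (l ^ 2 + 1)) - l / m ^ 2, 0] ∧
    (muE b).eval (X3E l m) =
      !![m, 2 / m ^ 2 + 1 / (2 * m ^ 2 * (l ^ 2 + 1)), 2 / (l ^ 2 + 1);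
        0, m + 2 * l / m - 1 / m ^ 3, -1 / m;
        0, (1 + (l ^ 2 + 1)) / m + l / m ^ 3, m + l / m] := by
  set B := algebraMap k K b with hB
  have hBe : B = m ^ 2 - l ^ 3 := by rw [hcurve]; ring
  have hh : X3E l m 0 * X3E l m 1 - X3E l m 1 * X3E l m 0
      = !![0, -1, 0; 0, 0, -2 * m * (l ^ 2 + 1); -(l ^ 2 + 1), 0, 0] := by
    ext i j; fin_cases i <;> fin_cases j <;>
      simp [X3E, Matrix.mul_apply, Fin.sum_univ_three] <;> ring
  have h1 : (X3E l m 0 * X3E l m 1 - X3E l m 1 * X3E l m 0)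
      * !![0, 0, -(l ^ 2 + 1)⁻¹; -1, 0, 0; 0, -(2 * m * (l ^ 2 + 1))⁻¹, 0] = 1 := by
    rw [hh]
    ext i j; fin_cases i <;> fin_cases j <;>
      simp [Matrix.mul_apply, Fin.sum_univ_three] <;> field_simp <;> ring
  have h2 : !![0, 0, -(l ^ 2 + 1)⁻¹; -1, 0, 0; 0, -(2 * m * (l ^ 2 + 1))⁻¹, 0]
      * (X3E l m 0 * X3E l m 1 - X3E l m 1 * X3E l m 0) = 1 := by
    rw [hh]
    ext i j; fin_cases i <;> fin_cases j <;>
      simp [Matrix.mul_apply, Fin.sum_univ_three] <;> field_simp <;> ring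
  have hmE : (mE b).eval (X3E l m) = !![0, (1 + (l ^ 2 + 1)) / (l ^ 2 + 1), -l / (l ^ 2 + 1);
      0, -1 / m, -2 * m; -(l ^ 2 + 1), l / m, 0] := by
    rw [mE_eval _ _ _ h1 h2, Matrix.algebraMap_eq_diagonal]
    ext i j; fin_cases i <;> fin_cases j <;>
      simp [X3E, Matrix.mul_apply, Fin.sum_univ_three, pow_succ, ← hB, hBe] <;>
      field_simp <;> ring
  have hlam : (lamE b).eval (X3E l m) =
      !![l, -2 / m - 1 / (2 * m * (l ^ 2 + 1)), -2 * m / (l ^ 2 + 1);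
        0, 1 / m ^ 2 - l, 1;
        0, -(1 + (l ^ 2 + 1)) - l / m ^ 2, 0] := by
    rw [lamE_eval _ _ _ h1 h2, hmE, hh]
    ext i j; fin_cases i <;> fin_cases j <;>
      simp [X3E, Matrix.mul_apply, Fin.sum_univ_three] <;> field_simp <;> ring
  refine ⟨⟨⟨_, _, h1, h2⟩, rfl⟩, hlam, ?_⟩
  clear hcurve
  clear_value B
  rw [muE_eval, hlam, hmE]
  ext i j; fin_cases i <;> fin_cases j <;>
    simp [X3E, Matrix.mul_apply, Fin.sum_univ_three] <;> field_simp <;> ring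

end NCExpr

end Pool.Agent.Helper84
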