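import Mathlib
import Pool.Agent.Helper84.NCDefs
import Pool.Agent.Helper84.NCExprs
import Pool.Agent.Helper84.NCPath
import Pool.Agent.Helper84.NCBase
import Pool.Agent.Helper84.NCFamily

set_option autoImplicit false

namespace Pool.Agent.Helper84

namespace NCExpr

section

variable {K : Type} [Field K]

open Polynomial in
theorem charpoly_block3 (l p q a b c d : K) :
    (!![l, p, q; 0, a, b; 0, c, d] : Matrix (Fin 3) (Fin 3) K).charpoly
      = (X - C l) * ((X - C a) * (X - C d) - C (b * c)) := by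
  rw [Matrix.charpoly, Matrix.det_fin_three]
  simp [Matrix.charmatrix_apply]
  ring

theorem det_block3 (l p q a b c d : K) :
    (!![l, p, q; 0, a, b; 0, c, d] : Matrix (Fin 3) (Fin 3) K).det
      = l * (a * d - b * c) := by
  rw [Matrix.det_fin_three]
  simp
  ring

end

variable {k : Type} [Field k] {K : Type} [Field K] [Algebra k K]

theorem X3E_charpoly (h20 : (2 : K) ≠ 0) (b : k) (l m : K) (hm : m ≠ 0) (hD : l ^ 2 + 1 ≠ 0)
    (hcurve : m ^ 2 = l ^ 3 + algebraMap k K b) :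
    ∃ R : Polynomial K, ((lamE b).eval (X3E l m)).charpoly
      = (Polynomial.X - Polynomial.C l) * R ∧ R.eval l = 3 * l ^ 2 + 2 := by
  rw [(X3E_spec h20 b l m hm hD hcurve).2.1, charpoly_block3]
  refine ⟨_, rfl, ?_⟩
  simp only [Polynomial.eval_sub, Polynomial.eval_mul, Polynomial.eval_X, Polynomial.eval_C]
  field_simp
  ring

theorem X3E_det (h20 : (2 : K) ≠ 0) (b : k) (l m : K) (hm : m ≠ 0) (hD : l ^ 2 + 1 ≠ 0)
    (hcurve : m ^ 2 = l ^ 3 + algebraMap k K b) :
    m * ((muE b).eval (X3E l m) + m • (1 : Matrix (Fin 3) (Fin 3) K)).det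
      = 2 * (4 * m ^ 4 + 6 * l * m ^ 2 + 3 * l ^ 2) := by
  have h1 : (muE b).eval (X3E l m) + m • (1 : Matrix (Fin 3) (Fin 3) K)
      = !![2 * m, 2 / m ^ 2 + 1 / (2 * m ^ 2 * (l ^ 2 + 1)), 2 / (l ^ 2 + 1);
        0, 2 * m + 2 * l / m - 1 / m ^ 3, -1 / m;
        0, (1 + (l ^ 2 + 1)) / m + l / m ^ 3, 2 * m + l / m] := by
    rw [(X3E_spec h20 b l m hm hD hcurve).2.2]
    ext i j; fin_cases i <;> fin_cases j <;> simp <;> ring
  rw [h1, det_block3]
  field_simp
  ring

end NCExpr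

end Pool.Agent.Helper84
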