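import Mathlib

set_option autoImplicit false

namespace Pool.Agent.Helper84

open Polynomial

/-- Points of `μ^2 = l^3 + b` over `k(t)` are constant. -/
theorem ratfunc_points {k : Type} [Field k] (h2 : (2 : k) ≠ 0) (h3 : (3 : k) ≠ 0) {b : k}
    (hb : b ≠ 0) (l μ : RatFunc k) (h : μ ^ 2 = l ^ 3 + algebraMap k (RatFunc k) b) :
    ∃ l₀ μ₀ : k, l = algebraMap k (RatFunc k) l₀ ∧ μ = algebraMap k (RatFunc k) μ₀ ∧
      μ₀ ^ 2 = l₀ ^ 3 + b := by
  classical
  set p := l.num with hp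
  set q := l.denom with hq
  have hcop : IsCoprime p q := RatFunc.isCoprime_num_denom l
  have hq0 : q ≠ 0 := RatFunc.denom_ne_zero l
  have hqR : algebraMap k[X] (RatFunc k) q ≠ 0 := RatFunc.algebraMap_ne_zero hq0
  have hl : l = algebraMap k[X] (RatFunc k) p / algebraMap k[X] (RatFunc k) q :=
    (RatFunc.num_div_denom l).symm
  have hbR : algebraMap k (RatFunc k) b = algebraMap k[X] (RatFunc k) (C b) := by
    rw [IsScalarTower.algebraMap_apply k k[X] (RatFunc k)]; rfl
  -- `(μ q^2)^2 = q (p^3 + b q^3)`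
  have hw : (μ * (algebraMap k[X] (RatFunc k) q) ^ 2) ^ 2
      = algebraMap k[X] (RatFunc k) (q * (p ^ 3 + C b * q ^ 3)) := by
    rw [mul_pow, h, hl, hbR]
    simp only [map_mul, map_add, map_pow]
    field_simp
  have hint : IsIntegral k[X] (μ * (algebraMap k[X] (RatFunc k) q) ^ 2) := by
    refine ⟨X ^ 2 - C (q * (p ^ 3 + C b * q ^ 3)), monic_X_pow_sub_C _ (by norm_num), ?_⟩
    rw [eval₂_sub, eval₂_X_pow, eval₂_C, hw, sub_self]
  obtain ⟨w, hw2⟩ := IsIntegrallyClosed.isIntegral_iff.mp hint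
  have hw3 : q * (p ^ 3 + C b * q ^ 3) = w ^ 2 := by
    apply RatFunc.algebraMap_injective k
    rw [← hw, ← hw2, map_pow]
  have hcop2 : IsCoprime q (p ^ 3 + C b * q ^ 3) := by
    have h1 : IsCoprime q (p ^ 3) := hcop.symm.pow_right
    have : p ^ 3 + C b * q ^ 3 = p ^ 3 + q * (C b * q ^ 2) := by ring
    rw [this]
    exact IsCoprime.add_mul_left_right h1 _
  obtain ⟨d, hd⟩ := exists_associated_pow_of_mul_eq_pow' hcop2 hw3
  obtain ⟨e, he⟩ := exists_associated_pow_of_mul_eq_pow' hcop2.symm (by rw [mul_comm]; exact hw3)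
  obtain ⟨u1, hu1⟩ := hd
  obtain ⟨u2, hu2⟩ := he
  obtain ⟨c1, hc1, hc1'⟩ := Polynomial.isUnit_iff.mp u1.isUnit
  obtain ⟨c2, hc2, hc2'⟩ := Polynomial.isUnit_iff.mp u2.isUnit
  rw [← hc1'] at hu1
  rw [← hc2'] at hu2
  have hc1ne : c1 ≠ 0 := hc1.ne_zero
  have hc2ne : c2 ≠ 0 := hc2.ne_zero
  have hd0 : d ≠ 0 := by
    rintro rfl
    apply hq0
    rw [← hu1]; simp
  have hcop3 : IsCoprime p (p ^ 3 + C b * q ^ 3) := by
    have h1 : IsCoprime p (C b * q ^ 3) := by
      exact (isCoprime_mul_unit_left_right (isUnit_C.mpr (isUnit_iff_ne_zero.mpr hb)) p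
        (q ^ 3)).mpr hcop.pow_right
    have : p ^ 3 + C b * q ^ 3 = C b * q ^ 3 + p * p ^ 2 := by ring
    rw [this]
    exact IsCoprime.add_mul_left_right h1 _
  -- the degrees vanish
  have hdeg : p.natDegree = 0 ∧ q.natDegree = 0 := by
    by_cases hp0 : p = 0
    · have hu : IsUnit q := by
        rw [hp0] at hcop
        exact isCoprime_zero_left.mp hcop
      exact ⟨by rw [hp0]; simp, natDegree_eq_zero_of_isUnit hu⟩
    · by_cases he0 : e = 0
      · rw [he0] at hu2
        have hz : p ^ 3 + C b * q ^ 3 = 0 := by rw [← hu2]; simp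
        rw [hz] at hcop2 hcop3
        exact ⟨natDegree_eq_zero_of_isUnit (isCoprime_zero_right.mp hcop3),
          natDegree_eq_zero_of_isUnit (isCoprime_zero_right.mp hcop2)⟩
      · have hcop4 : IsCoprime e p := by
          have h1 : IsCoprime p (e ^ 2 * C c2) := by rw [hu2]; exact hcop3
          have h2 : IsCoprime p (e ^ 2) := IsCoprime.of_mul_right_left h1
          exact ((IsCoprime.pow_right_iff (by norm_num)).mp h2).symm
        have heq : C (-c2) * e ^ 2 + C 1 * p ^ 3 + C (b * c1 ^ 3) * d ^ 6 = 0 := by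
          have h1 : q = d ^ 2 * C c1 := hu1.symm
          have h2 : e ^ 2 * C c2 = p ^ 3 + C b * (d ^ 2 * C c1) ^ 3 := by rw [← h1]; exact hu2
          have h3 : C (-c2) * e ^ 2 = - (e ^ 2 * C c2) := by rw [C_neg]; ring
          rw [h3, h2, C_mul, C_pow, C_1]
          ring
        have hfc := Polynomial.flt_catalan (p := 2) (q := 3) (r := 6) (by norm_num)
          (by norm_num) (by norm_num) (by norm_num) (by exact_mod_cast h2)
          (by exact_mod_cast h3)
          (by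
            have : ((6 : ℕ) : k) = 2 * 3 := by norm_num
            rw [this]; exact mul_ne_zero h2 h3)
          he0 hp0 hd0 hcop4 (neg_ne_zero.mpr hc2ne) one_ne_zero
          (mul_ne_zero hb (pow_ne_zero 3 hc1ne)) heq
        refine ⟨hfc.2.1, ?_⟩
        rw [← hu1, natDegree_mul_C_of_isUnit hc1, natDegree_pow, hfc.2.2, mul_zero]
  have hqm : q.Monic := RatFunc.monic_denom l
  have hq1 : q = 1 := hqm.natDegree_eq_zero.mp hdeg.2
  obtain ⟨p0, hp0⟩ := natDegree_eq_zero.mp hdeg.1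
  have hl1 : l = algebraMap k (RatFunc k) p0 := by
    rw [hl, hq1, ← hp0, map_one, div_one, IsScalarTower.algebraMap_apply k k[X] (RatFunc k)]
    rfl
  have hwc : w ^ 2 = C (p0 ^ 3 + b) := by
    rw [← hw3, hq1, ← hp0, C_add, C_pow]; ring
  have hwd : w.natDegree = 0 := by
    have := congrArg natDegree hwc
    rw [natDegree_pow, natDegree_C] at this
    omega
  obtain ⟨w0, hw0⟩ := natDegree_eq_zero.mp hwd
  have hμ : μ = algebraMap k (RatFunc k) w0 := by
    have : μ = algebraMap k[X] (RatFunc k) w := by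
      rw [hw2, hq1, map_one]; ring
    rw [this, ← hw0, IsScalarTower.algebraMap_apply k k[X] (RatFunc k)]
    rfl
  refine ⟨p0, w0, hl1, hμ, ?_⟩
  have : C (w0 ^ 2) = C (p0 ^ 3 + b) := by rw [← hwc, ← hw0, C_pow]
  exact C_injective this

end Pool.Agent.Helper84
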