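import Mathlib
import Pool.Agent.Helper84.NCPoints

set_option autoImplicit false

namespace Pool.Agent.Helper84

section

variable {k : Type} [Field k] {E : Type} [Field E] [Algebra k E]

/-- The embedding of `k(t)` sending `t` to a transcendental element. -/
theorem exists_lift (σ : E) (hσ : Transcendental k σ) :
    ∃ θ : RatFunc k →ₐ[k] E, θ RatFunc.X = σ ∧
      ∀ f : RatFunc k, θ f = Polynomial.aeval σ f.num / Polynomial.aeval σ f.denom := by
  have hinj : Function.Injective (Polynomial.aeval σ : Polynomial k →ₐ[k] E) :=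
    transcendental_iff_injective.mp hσ
  have hle : nonZeroDivisors (Polynomial k)
      ≤ (nonZeroDivisors E).comap (Polynomial.aeval σ : Polynomial k →ₐ[k] E) := by
    intro p hp
    rw [Submonoid.mem_comap]
    exact mem_nonZeroDivisors_of_ne_zero
      ((map_ne_zero_iff _ hinj).mpr (nonZeroDivisors.ne_zero hp))
  refine ⟨RatFunc.liftAlgHom (Polynomial.aeval σ) hle, ?_, ?_⟩
  · rw [RatFunc.liftAlgHom_apply]
    simp
  · intro f
    rw [RatFunc.liftAlgHom_apply]

theorem hom_ext_X (θ θ' : RatFunc k →ₐ[k] E) (h : θ RatFunc.X = θ' RatFunc.X) (w : RatFunc k) :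
    θ w = θ' w := by
  have hp : ∀ p : Polynomial k, θ (algebraMap (Polynomial k) (RatFunc k) p)
      = θ' (algebraMap (Polynomial k) (RatFunc k) p) := by
    intro p
    have h1 : ∀ η : RatFunc k →ₐ[k] E, η (algebraMap (Polynomial k) (RatFunc k) p)
        = Polynomial.aeval (η RatFunc.X) p := by
      intro η
      rw [Polynomial.aeval_algHom_apply]
      congr 1
      rw [RatFunc.aeval_X_left_eq_algebraMap]
    rw [h1, h1, h]
  rw [← RatFunc.num_div_denom w, map_div₀, map_div₀, hp, hp]

/-- A transcendental value forces a transcendental argument. -/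
theorem transcendental_arg (f : RatFunc k) (L σ : E) (hL : Transcendental k L)
    (h : Polynomial.aeval σ f.num = L * Polynomial.aeval σ f.denom) :
    Transcendental k σ ∧ Polynomial.aeval σ f.denom ≠ 0 := by
  have hden : Polynomial.aeval σ f.denom ≠ 0 := by
    intro h0
    obtain ⟨u, v, huv⟩ := RatFunc.isCoprime_num_denom f
    have := congrArg (Polynomial.aeval σ) huv
    rw [map_add, map_mul, map_mul, h, h0, map_one] at this
    simp at this
  refine ⟨?_, hden⟩
  intro hσ
  apply hL
  have hL' : L = Polynomial.aeval σ f.num / Polynomial.aeval σ f.denom := by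
    rw [h, mul_div_assoc, div_self hden, mul_one]
  have h1 : ∀ p : Polynomial k, IsAlgebraic k (Polynomial.aeval σ p) := by
    intro p
    rw [isAlgebraic_iff_isIntegral] at hσ ⊢
    exact IsIntegral.of_mem_of_fg _ hσ.fg_adjoin_singleton _
      (Polynomial.aeval_mem_adjoin_singleton _ _)
  rw [hL', div_eq_mul_inv]
  exact (h1 _).mul (h1 _).inv

theorem lead_ne (f : RatFunc k) (L : E) (hL : Transcendental k L) :
    algebraMap k E (f.num.coeff (max f.num.natDegree f.denom.natDegree))
      ≠ L * algebraMap k E (f.denom.coeff (max f.num.natDegree f.denom.natDegree)) := by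
  intro h
  set d := max f.num.natDegree f.denom.natDegree with hd
  by_cases hq : f.denom.coeff d = 0
  · have hp : f.num.coeff d = 0 := by
      rw [hq, map_zero, mul_zero] at h
      exact (map_eq_zero_iff _ (algebraMap k E).injective).mp h
    rcases max_cases f.num.natDegree f.denom.natDegree with ⟨h1, h2⟩ | ⟨h1, h2⟩
    · rw [← hd] at h1
      rw [h1, Polynomial.coeff_natDegree, Polynomial.leadingCoeff_eq_zero] at hp
      rw [hp, Polynomial.natDegree_zero] at h1
      have h3 : f.denom.natDegree = d := by
        have : f.denom.natDegree ≤ d := le_max_right _ _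
        omega
      rw [← h3, Polynomial.coeff_natDegree, Polynomial.leadingCoeff_eq_zero] at hq
      exact f.denom_ne_zero hq
    · rw [← hd] at h1
      rw [h1, Polynomial.coeff_natDegree, Polynomial.leadingCoeff_eq_zero] at hq
      exact f.denom_ne_zero hq
  · apply hL
    have : L = algebraMap k E (f.num.coeff d / f.denom.coeff d) := by
      rw [map_div₀, h, mul_div_assoc, div_self, mul_one]
      exact (map_ne_zero_iff _ (algebraMap k E).injective).mpr hq
    rw [this]
    exact isAlgebraic_algebraMap _

/-- The key field-theoretic statement. -/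
theorem degree_one_of_point (h2 : (2 : k) ≠ 0) (h3 : (3 : k) ≠ 0) {b : k} (hb : b ≠ 0)
    (ι : RatFunc k →ₐ[k] E) (m : E)
    (hm : m ^ 2 = (ι RatFunc.X) ^ 3 + algebraMap k E b)
    (hgen : ∀ z : E, ∃ a c : RatFunc k, z = ι a + ι c * m)
    (f : RatFunc k) (σ : E)
    (h : Polynomial.aeval σ f.num = ι RatFunc.X * Polynomial.aeval σ f.denom) :
    max f.num.natDegree f.denom.natDegree = 1 := by
  have hL : Transcendental k (ι RatFunc.X) := by
    rw [transcendental_iff_injective]
    have h1 : Function.Injective (Polynomial.aeval (RatFunc.X : RatFunc k) :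
        Polynomial k →ₐ[k] RatFunc k) := transcendental_iff_injective.mp RatFunc.transcendental_X
    have : (Polynomial.aeval (ι RatFunc.X) : Polynomial k →ₐ[k] E)
        = ι.comp (Polynomial.aeval RatFunc.X) := by
      ext; simp
    rw [this]
    exact (ι : RatFunc k →+* E).injective.comp h1
  obtain ⟨hσ, hden⟩ := transcendental_arg f (ι RatFunc.X) σ hL h
  obtain ⟨θ, hθX, hθ⟩ := exists_lift σ hσ
  have hθf : θ f = ι RatFunc.X := by
    rw [hθ, h, mul_div_assoc, div_self hden, mul_one]
  have hf : Transcendental k f := by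
    intro hf
    apply hL
    rw [← hθf]
    exact hf.algHom θ
  obtain ⟨κ, hκX, hκ⟩ := exists_lift f hf
  have hcomp : ∀ w : RatFunc k, θ (κ w) = ι w := by
    intro w
    have := hom_ext_X (θ.comp κ) ι (by simp [hκX, hθf]) w
    simpa using this
  have hθinj : Function.Injective θ := (θ : RatFunc k →+* E).injective
  have hιinj : Function.Injective ι := (ι : RatFunc k →+* E).injective
  obtain ⟨a, c, hac⟩ := hgen σ
  by_cases hc : c = 0
  · rw [hc, map_zero, zero_mul, add_zero] at hac
    have ha : Transcendental k a := by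
      intro ha
      apply hσ
      rw [hac]
      exact ha.algHom ι
    obtain ⟨κa, hκaX, hκa⟩ := exists_lift a ha
    have h1 : ∀ w, ι (κa w) = θ w := by
      intro w
      have := hom_ext_X (ι.comp κa) θ (by simp [hκaX, hθX, hac]) w
      simpa using this
    have h4 : ∀ w, κa (κ w) = w := by
      intro w
      apply hιinj
      rw [h1, hcomp]
    have h5 : ∀ w, κ (κa w) = w := by
      intro w
      apply (κa : RatFunc k →+* RatFunc k).injective
      exact h4 (κa w)
    have h6 : IntermediateField.adjoin k {f} = ⊤ := by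
      rw [eq_top_iff]
      intro w _
      rw [← h5 w, hκ]
      exact (IntermediateField.mem_adjoin_simple_iff _ _).mpr ⟨_, _, rfl⟩
    rw [← RatFunc.finrank_eq_max_natDegree, h6]
    exact IntermediateField.finrank_top
  · exfalso
    have hιc : ι c ≠ 0 := (map_ne_zero_iff _ hιinj).mpr hc
    have h7 : m = θ ((RatFunc.X - κ a) / κ c) := by
      rw [map_div₀, map_sub, hcomp, hcomp, hθX, hac, add_sub_cancel_left, mul_comm,
        mul_div_assoc, div_self hιc, mul_one]
    have h8 : ((RatFunc.X - κ a) / κ c) ^ 2 = f ^ 3 + algebraMap k (RatFunc k) b := by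
      apply hθinj
      rw [map_pow, ← h7, hm, map_add, map_pow, hθf, AlgHom.commutes]
    obtain ⟨l₀, _, hl₀, _, _⟩ := ratfunc_points h2 h3 hb _ _ h8
    apply hf
    rw [hl₀]
    exact isAlgebraic_algebraMap _

end

end Pool.Agent.Helper84
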