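import Mathlib
import Pool.Agent.Helper84.NCDefs
import Pool.Agent.Helper84.NCExprs
import Pool.Agent.Helper84.NCPath
import Pool.Agent.Helper84.NCBase
import Pool.Agent.Helper84.NCCore

set_option autoImplicit false

namespace Pool.Agent.Helper84

open NCExpr

section

variable {k : Type} [Field k] {K : Type} [Field K] [Algebra k K]

theorem finite_bad (T : Finset K) (P : K → Polynomial K) (hP : ∀ t ∈ T, P t ≠ 0)
    (P0 : Polynomial K) (hP0 : P0 ≠ 0) [Infinite K] :
    ∃ c : K, P0.eval c ≠ 0 ∧ ∀ t ∈ T, (P t).eval c ≠ 0 := by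
  classical
  have hne : P0 * ∏ t ∈ T, P t ≠ 0 :=
    mul_ne_zero hP0 (Finset.prod_ne_zero_iff.mpr hP)
  obtain ⟨c, hc⟩ : ∃ c : K, (P0 * ∏ t ∈ T, P t).eval c ≠ 0 := by
    by_contra hcon
    push Not at hcon
    exact hne (Polynomial.funext (fun c => by rw [hcon c]; simp))
  rw [Polynomial.eval_mul, Polynomial.eval_prod] at hc
  exact ⟨c, left_ne_zero_of_mul hc, Finset.prod_ne_zero_iff.mp (right_ne_zero_of_mul hc)⟩

theorem exists2 [Infinite K] (b : k) (T : Finset K) :
    ∃ (X : Fin 2 → Matrix (Fin 2) (Fin 2) K) (l : K), l ∉ T ∧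
      IsUnit (X 0 * X 1 - X 1 * X 0) ∧
      (lamE b).eval X = l • (1 : Matrix (Fin 2) (Fin 2) K) := by
  open Polynomial in
  set B := algebraMap k K b with hB
  let P : K → K[X] := fun t => (C B - X ^ 2) * (C (1 + B) - X ^ 2) + C (t + 1) * X ^ 2
  have hP : ∀ t ∈ T, P t ≠ 0 := by
    intro t _ h
    have h4 : (P t).coeff 4 = 0 := by rw [h]; simp
    have : P t = X ^ 4 + C (t + 1 - B - (1 + B)) * X ^ 2 + C (B * (1 + B)) := by
      simp only [P, C_add, C_sub, C_mul]; ring
    rw [this] at h4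
    simp only [coeff_add, coeff_X_pow, coeff_C, coeff_C_mul] at h4
    norm_num at h4
  obtain ⟨c, hc0, hcT⟩ := finite_bad T P hP X X_ne_zero
  rw [eval_X] at hc0
  refine ⟨X2 c, _, ?_, (X2_spec b c hc0).1, (X2_spec b c hc0).2⟩
  intro hmem
  apply hcT _ hmem
  simp only [P, Polynomial.eval_add, Polynomial.eval_mul, Polynomial.eval_sub,
    Polynomial.eval_C, Polynomial.eval_pow, Polynomial.eval_X]
  field_simp
  ring

theorem rE_of_lam {ι : Type} [Fintype ι] [DecidableEq ι] (b : k) (S : List k)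
    (X : Fin 2 → Matrix ι ι K) (hu : IsUnit (X 0 * X 1 - X 1 * X 0))
    (h : ∀ s ∈ S, IsUnit ((lamE b).eval X - algebraMap k (Matrix ι ι K) s)) :
    (rE b S).DefinedAt X := by
  rw [defined_rE]
  exact ⟨hu, isUnit_prodE X b S h⟩

theorem algMap_eq_smul {ι : Type} [Fintype ι] [DecidableEq ι] (s : k) :
    algebraMap k (Matrix ι ι K) s = (algebraMap k K s) • (1 : Matrix ι ι K) := by
  rw [Matrix.algebraMap_eq_diagonal]
  ext i j
  by_cases h : i = j
  · subst h; simp
  · simp [h]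

theorem good2 [Infinite K] (b : k) (S : List k) :
    ∃ X : Fin 2 → Matrix (Fin 2) (Fin 2) K, (rE b S).DefinedAt X := by
  classical
  obtain ⟨X, l, hl, hu, hlam⟩ := exists2 (K := K) b ((S.map (algebraMap k K)).toFinset)
  refine ⟨X, rE_of_lam b S X hu ?_⟩
  intro s hs
  rw [hlam, algMap_eq_smul, ← sub_smul]
  have hne : l - algebraMap k K s ≠ 0 := by
    intro h
    apply hl
    rw [List.mem_toFinset, List.mem_map]
    exact ⟨s, hs, (sub_eq_zero.mp h).symm⟩
  have : IsUnit ((Units.mk0 _ hne) • (1 : Matrix (Fin 2) (Fin 2) K)) :=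
    (isUnit_smul_iff _ _).mpr isUnit_one
  exact this

theorem good3 [Infinite K] (h20 : (2 : K) ≠ 0) (b : k) (S : List k) :
    ∃ X : Fin 2 → Matrix (Fin 3) (Fin 3) K, (rE b S).DefinedAt X := by
  classical
  open Polynomial in
  choose γ hγ using X3_det (K := K) h20 b
  set B := algebraMap k K b with hB
  let P : K → K[X] := fun s => X ^ 12 + C (γ s) * X ^ 6 + C (B ^ 2 * (B ^ 2 - 1) ^ 2)
  have hP : ∀ t ∈ (S.map (algebraMap k K)).toFinset, P t ≠ 0 := by
    intro t _ h
    have h4 : (P t).coeff 12 = 0 := by rw [h]; simp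
    simp only [P, coeff_add, coeff_X_pow, coeff_C, coeff_C_mul] at h4
    norm_num at h4
  obtain ⟨c, hc0, hcT⟩ := finite_bad _ P hP X X_ne_zero
  rw [eval_X] at hc0
  refine ⟨X3 c, rE_of_lam b S _ (X3_spec h20 b c hc0).1 ?_⟩
  intro s hs
  rw [algMap_eq_smul, Matrix.isUnit_iff_isUnit_det, isUnit_iff_ne_zero]
  intro hdet
  have h1 := hγ (algebraMap k K s) c hc0
  rw [hdet, mul_zero] at h1
  apply hcT (algebraMap k K s) (by rw [List.mem_toFinset, List.mem_map]; exact ⟨s, hs, rfl⟩)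
  simp only [P, eval_add, eval_mul, eval_C, eval_pow, eval_X]
  exact h1.symm

/-- The expression `r` is defined at some tuple of every size at least two. -/
theorem good_all [Infinite K] (h20 : (2 : K) ≠ 0) (b : k) (S : List k) (n : ℕ) :
    ∃ X : Fin 2 → Matrix (Fin (n + 2)) (Fin (n + 2)) K, (rE b S).DefinedAt X := by
  induction n using Nat.strong_induction_on with
  | _ n ih =>
    match n with
    | 0 => exact good2 b S
    | 1 => exact good3 h20 b S
    | (m + 2) =>
      obtain ⟨X, hX⟩ := ih m (by omega)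
      obtain ⟨Y, hY⟩ := good2 (K := K) b S
      have h1 := (eval_fromBlocks X Y (rE b S) hX hY).1
      let f : Fin (m + 2) ⊕ Fin 2 ≃ Fin (m + 2 + 2) := finSumFinEquiv
      exact ⟨_, (eval_reindex f _ (rE b S) h1).1⟩

end

end Pool.Agent.Helper84
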