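import Mathlib
import Pool.Agent.Helper84.NCDefs
import Pool.Agent.Helper84.NCExprs
import Pool.Agent.Helper84.NCPath
import Pool.Agent.Helper84.NCBase
import Pool.Agent.Helper84.NCCore
import Pool.Agent.Helper84.NCFinal
import Pool.Agent.Helper84.NCPoints

set_option autoImplicit false

namespace Pool.Agent.Helper84

open NCExpr

section

variable {k : Type} [Field k] {K : Type} [Field K] [Algebra k K]

/-- one-by-one matrices are scalars -/
def oneHom (k : Type) [Field k] (K : Type) [Field K] [Algebra k K] :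
    Matrix (Fin 1) (Fin 1) K →ₐ[k] K where
  toFun A := A 0 0
  map_one' := by simp
  map_mul' A B := by simp [Matrix.mul_apply]
  map_zero' := by simp
  map_add' A B := by simp
  commutes' r := by simp [Matrix.algebraMap_eq_diagonal]

/-- An expression representing `r` is never defined at a tuple of one-by-one matrices. -/
theorem not_defined_one [Infinite K] (h20 : (2 : K) ≠ 0) (b : k) (S : List k)
    (hcurve : ∀ l μ : K, μ ^ 2 = l ^ 3 + algebraMap k K b → ∃ s ∈ S, l = algebraMap k K s)
    (e' : NCExpr k (Fin 2))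
    (hs : ∀ (n : ℕ) (X : Fin 2 → Matrix (Fin n) (Fin n) K), (rE b S).DefinedAt X →
      e'.DefinedAt X → (rE b S).eval X = e'.eval X)
    (X₀ : Fin 2 → Matrix (Fin 1) (Fin 1) K) (h₀ : e'.DefinedAt X₀) : False := by
  classical
  -- the value at `X₀`
  set ρ : K := (e'.eval X₀) 0 0 with hρ
  -- scalar matrices of size two
  let φ : Matrix (Fin 1) (Fin 1) K →ₐ[k] Matrix (Fin 2) (Fin 2) K :=
    ((Algebra.ofId K (Matrix (Fin 2) (Fin 2) K)).restrictScalars k).comp
      (oneHom k K)
  have hφ := eval_map φ X₀ e' h₀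
  -- a two-by-two tuple with a different value
  let p : Polynomial K := ((S.map fun s => (Polynomial.X - Polynomial.C s : Polynomial k)).prod).map
    (algebraMap k K)
  have hpm : p.Monic := (monic_listProd S).map _
  let T : Finset K := (p * ((Polynomial.X - Polynomial.C ρ) * p + 1)).roots.toFinset
  obtain ⟨X₁, l, hl, hu, hlam⟩ := exists2 (K := K) b T
  have hdeg : (1 : Polynomial K).degree < ((Polynomial.X - Polynomial.C ρ) * p).degree := by
    rw [Polynomial.degree_one, Polynomial.degree_mul, Polynomial.degree_X_sub_C]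
    have h1 : (0 : WithBot ℕ) ≤ p.degree := by
      rw [Polynomial.zero_le_degree_iff]
      exact hpm.ne_zero
    calc (0 : WithBot ℕ) < 1 := zero_lt_one
      _ = 1 + 0 := (add_zero _).symm
      _ ≤ 1 + p.degree := by gcongr
  have hm2 : ((Polynomial.X - Polynomial.C ρ) * p + 1).Monic :=
    ((Polynomial.monic_X_sub_C ρ).mul hpm).add_of_left hdeg
  have hne : p * ((Polynomial.X - Polynomial.C ρ) * p + 1) ≠ 0 := (hpm.mul hm2).ne_zero
  have hl1 : p.eval l ≠ 0 ∧ (l - ρ) * p.eval l + 1 ≠ 0 := by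
    have : ¬ (p * ((Polynomial.X - Polynomial.C ρ) * p + 1)).IsRoot l := by
      intro h
      apply hl
      rw [Multiset.mem_toFinset, Polynomial.mem_roots hne]
      exact h
    simp only [Polynomial.IsRoot, Polynomial.eval_mul, Polynomial.eval_add, Polynomial.eval_sub,
      Polynomial.eval_X, Polynomial.eval_C, Polynomial.eval_one] at this
    exact ⟨left_ne_zero_of_mul this, right_ne_zero_of_mul this⟩
  have hpl : (prodE b S).eval X₁ = p.eval l • (1 : Matrix (Fin 2) (Fin 2) K) := by
    rw [eval_prodE, hlam]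
    have h1 : (l • (1 : Matrix (Fin 2) (Fin 2) K))
        = (Algebra.ofId K (Matrix (Fin 2) (Fin 2) K)).restrictScalars k l := by
      simp [Algebra.ofId_apply, Algebra.algebraMap_eq_smul_one]
    rw [h1, Polynomial.aeval_algHom_apply]
    have h2 : Polynomial.aeval l
        ((S.map fun s => (Polynomial.X - Polynomial.C s : Polynomial k)).prod) = p.eval l := by
      rw [Polynomial.eval_map, Polynomial.aeval_def]
    rw [h2]
    simp [Algebra.ofId_apply, Algebra.algebraMap_eq_smul_one]
  have hpu : IsUnit ((prodE b S).eval X₁) := by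
    rw [hpl]
    have : IsUnit ((Units.mk0 _ hl1.1) • (1 : Matrix (Fin 2) (Fin 2) K)) :=
      (isUnit_smul_iff _ _).mpr isUnit_one
    exact this
  have hd1 : (rE b S).DefinedAt X₁ := by
    rw [defined_rE]; exact ⟨hu, hpu⟩
  have hval : (rE b S).eval X₁ = (l + (p.eval l)⁻¹) • (1 : Matrix (Fin 2) (Fin 2) K) := by
    simp only [rE, NCExpr.eval]
    rw [hlam, hpl, add_smul]
    congr 1
    apply ringInverse_eq
    · rw [smul_mul_smul_comm, mul_inv_cancel₀ hl1.1]; simp
    · rw [smul_mul_smul_comm, inv_mul_cancel₀ hl1.1]; simp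
  have hvne : l + (p.eval l)⁻¹ - ρ ≠ 0 := by
    intro h
    apply hl1.2
    have h2 := hl1.1
    field_simp at h
    linear_combination h
  -- the path
  obtain ⟨q, q', N, N', hq', hq, hNN, H, H'⟩ :=
    path_agree (rE b S) e' (fun i => φ (X₀ i)) X₁ hφ.1 hd1 (hs 2)
  have hq0 : q ≠ 0 := by rintro rfl; simp at hq
  have hq'0 : q' ≠ 0 := by rintro rfl; simp at hq'
  set D : Polynomial K := (N - (Polynomial.C ρ * q) • (1 : Matrix (Fin 2) (Fin 2) _)).det with hD
  have hDmap : ∀ c : K, D.eval c = ((evAt k c).mapMatrix N - (ρ * q.eval c) • 1).det := by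
    intro c
    have h1 : (evAt k c) D = ((evAt k c).mapMatrix
        (N - (Polynomial.C ρ * q) • (1 : Matrix (Fin 2) (Fin 2) _))).det := by
      rw [hD]; simpa using AlgHom.map_det (evAt k c) _
    rw [evAt_apply] at h1
    rw [h1]
    congr 1
    ext i j
    by_cases hij : i = j
    · subst hij; simp [evAt_apply]
    · simp [evAt_apply, hij]
  have hD1 : D.eval 1 ≠ 0 := by
    rw [hDmap]
    obtain ⟨_, e1⟩ := H K (evAt k (1 : K)) (by
      rw [evAt_apply]; exact isUnit_iff_ne_zero.mpr hq)
    rw [path_one, evAt_apply, hval] at e1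
    rw [← e1, smul_smul, ← sub_smul, Matrix.det_smul]
    have : q.eval 1 * (l + (p.eval l)⁻¹) - ρ * q.eval 1
        = q.eval 1 * (l + (p.eval l)⁻¹ - ρ) := by ring
    rw [this]
    simp only [Matrix.det_one, mul_one]
    exact pow_ne_zero _ (mul_ne_zero hq hvne)
  have hD0 : D ≠ 0 := by rintro h; rw [h] at hD1; simp at hD1
  obtain ⟨c, hc⟩ : ∃ c : K, (D * (q * q')).eval c ≠ 0 := by
    by_contra hcon
    push Not at hcon
    exact (mul_ne_zero hD0 (mul_ne_zero hq0 hq'0))
      (Polynomial.funext (fun c => by rw [hcon c]; simp))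
  rw [Polynomial.eval_mul, Polynomial.eval_mul] at hc
  have hDc : D.eval c ≠ 0 := left_ne_zero_of_mul hc
  have hqc : q.eval c ≠ 0 := left_ne_zero_of_mul (right_ne_zero_of_mul hc)
  have hq'c : q'.eval c ≠ 0 := right_ne_zero_of_mul (right_ne_zero_of_mul hc)
  obtain ⟨d1, e1⟩ := H K (evAt k c) (by rw [evAt_apply]; exact isUnit_iff_ne_zero.mpr hqc)
  obtain ⟨d2, _⟩ := H' K (evAt k c) (by rw [evAt_apply]; exact isUnit_iff_ne_zero.mpr hq'c)
  set Xc : Fin 2 → Matrix (Fin 2) (Fin 2) K :=
    fun i => (evAt k c).mapMatrix (path (fun i => φ (X₀ i)) X₁ i) with hXc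
  have hagree := hs 2 Xc d1 d2
  have hdet : ((e'.eval Xc) - ρ • 1).det ≠ 0 := by
    intro h
    apply hDc
    rw [hDmap, ← e1, evAt_apply, hagree, mul_comm ρ, ← smul_smul, ← smul_sub, Matrix.det_smul, h,
      mul_zero]
  -- direct sum with the one-by-one point
  have hblock := eval_fromBlocks X₀ Xc e' h₀ d2
  obtain ⟨X3', hX3'⟩ := good3 (K := K) h20 b S
  let f : Fin 3 ≃ Fin 1 ⊕ Fin 2 := (finSumFinEquiv (m := 1) (n := 2)).symm
  have hX3'' := (eval_reindex f X3' (rE b S) hX3').1
  refine no_simple_root (ι := Fin 1 ⊕ Fin 2) b S hcurve e'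
    (fun X h1 h2 => SameFunction.agree hs X h1 h2) _ _ hblock.1 hX3'' ρ ?_
  rw [hblock.2, Matrix.charpoly_fromBlocks_zero₁₂]
  have hc1 : (e'.eval X₀).charpoly = Polynomial.X - Polynomial.C ρ := by
    rw [Matrix.charpoly, Matrix.det_unique]
    simp [Matrix.charmatrix_apply_eq, hρ]
  have hne1 : (e'.eval X₀).charpoly ≠ 0 := (Matrix.charpoly_monic _).ne_zero
  have hne2 : (e'.eval Xc).charpoly ≠ 0 := (Matrix.charpoly_monic _).ne_zero
  rw [Polynomial.rootMultiplicity_mul (mul_ne_zero hne1 hne2), hc1,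
    Polynomial.rootMultiplicity_X_sub_C_self]
  have : (e'.eval Xc).charpoly.rootMultiplicity ρ = 0 := by
    apply Polynomial.rootMultiplicity_eq_zero
    rw [Polynomial.IsRoot, Matrix.eval_charpoly]
    intro h
    apply hdet
    have h3 : e'.eval Xc - ρ • (1 : Matrix (Fin 2) (Fin 2) K)
        = -(Matrix.scalar (Fin 2) ρ - e'.eval Xc) := by
      rw [neg_sub]
      congr 1
      ext i j
      by_cases hij : i = j
      · subst hij; simp
      · simp [hij]
    rw [h3, Matrix.det_neg, h, mul_zero]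
  rw [this]

end

end Pool.Agent.Helper84
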