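import Mathlib
import Pool.Agent.Helper84.NCDefs
import Pool.Agent.Helper84.NCMain

set_option autoImplicit false

namespace Pool.Agent.Helper84

open NCExpr

instance infinite_ratFunc (k : Type) [Field k] : Infinite (RatFunc k) :=
  Infinite.of_injective (algebraMap (Polynomial k) (RatFunc k)) (RatFunc.algebraMap_injective k)

/-- If some curve `μ^2 = l^3 + b` has only finitely many points over `k`, then some
noncommutative rational function over `k` has no simple eigenvalue in `k(t)`. -/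
theorem general {k : Type} [Field k] (h2 : (2 : k) ≠ 0) (h3 : (3 : k) ≠ 0) {b : k}
    (hb : b ≠ 0) (S : List k) (hS : ∀ l μ : k, μ ^ 2 = l ^ 3 + b → l ∈ S) :
    ∃ r : NCExpr k (Fin 2),
      (∃ (n : ℕ) (X : Fin 2 → Matrix (Fin n) (Fin n) (RatFunc k)), 0 < n ∧ r.DefinedAt X) ∧
      ∀ r' : NCExpr k (Fin 2),
        (∀ (n : ℕ) (X : Fin 2 → Matrix (Fin n) (Fin n) (RatFunc k)), r.DefinedAt X →
          r'.DefinedAt X → r.eval X = r'.eval X) →
        ∀ (n : ℕ), 0 < n → ∀ (X : Fin 2 → Matrix (Fin n) (Fin n) (RatFunc k)),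
          r'.DefinedAt X → ∀ c : RatFunc k, (r'.eval X).charpoly.rootMultiplicity c ≠ 1 := by
  have h20 : (2 : RatFunc k) ≠ 0 := by
    intro h
    apply h2
    apply (algebraMap k (RatFunc k)).injective
    rw [map_ofNat, map_zero, h]
  have hcurve : ∀ l μ : RatFunc k, μ ^ 2 = l ^ 3 + algebraMap k (RatFunc k) b →
      ∃ s ∈ S, l = algebraMap k (RatFunc k) s := by
    intro l μ h
    obtain ⟨l₀, μ₀, h1, _, h3'⟩ := ratfunc_points h2 h3 hb l μ h
    exact ⟨l₀, hS l₀ μ₀ h3', h1⟩
  refine ⟨rE b S, ?_, ?_⟩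
  · obtain ⟨X, hX⟩ := good_all (K := RatFunc k) h20 b S 0
    exact ⟨_, X, by norm_num, hX⟩
  · intro r' hs n hn X hX c
    match n, hn with
    | 1, _ => exact (not_defined_one h20 b S hcurve r' hs X hX).elim
    | (m + 2), _ =>
      obtain ⟨X₁, hX₁⟩ := good_all (K := RatFunc k) h20 b S m
      exact no_simple_root b S hcurve r' (fun Y h1 h2 => hs _ Y h1 h2) X X₁ hX hX₁ c

/-- The rational points of `μ^2 = l^3 - 432`. -/
theorem rat_points (l μ : ℚ) (h : μ ^ 2 = l ^ 3 + (-432)) : l ∈ [(12 : ℚ)] := by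
  have hflt : FermatLastTheoremWith ℚ 3 := fermatLastTheoremFor_iff_rat.mp fermatLastTheoremThree
  have hl : l ≠ 0 := by
    rintro rfl
    nlinarith [sq_nonneg μ]
  have hsum : ((36 + μ) / (6 * l)) ^ 3 + ((36 - μ) / (6 * l)) ^ 3 = 1 ^ 3 := by
    field_simp
    linear_combination 216 * h
  have hcase : (36 + μ) / (6 * l) = 0 ∨ (36 - μ) / (6 * l) = 0 := by
    by_contra hcon
    push Not at hcon
    exact hflt _ _ _ hcon.1 hcon.2 one_ne_zero hsum
  have h6 : (6 : ℚ) * l ≠ 0 := mul_ne_zero (by norm_num) hl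
  have hμ : μ ^ 2 = 1296 := by
    rcases hcase with h1 | h1
    · rw [div_eq_zero_iff] at h1
      rcases h1 with h1 | h1
      · have : μ = -36 := by linarith
        rw [this]; norm_num
      · exact absurd h1 h6
    · rw [div_eq_zero_iff] at h1
      rcases h1 with h1 | h1
      · have : μ = 36 := by linarith
        rw [this]; norm_num
      · exact absurd h1 h6
  have hl3 : l ^ 3 = 12 ^ 3 := by
    rw [hμ] at h; linarith
  have : l = 12 := (Odd.strictMono_pow (R := ℚ) (by decide : Odd 3)).injective hl3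
  simp [this]

end Pool.Agent.Helper84

namespace Pool.Agent.Helper84

open NCExpr

/-- Version of `general` for an arbitrary (propositionally equal) algebra instance. -/
theorem general' {k : Type} [Field k] [inst : Algebra k (RatFunc k)]
    (hinst : inst = RatFunc.instAlgebraOfPolynomial k k)
    (h2 : (2 : k) ≠ 0) (h3 : (3 : k) ≠ 0) {b : k}
    (hb : b ≠ 0) (S : List k) (hS : ∀ l μ : k, μ ^ 2 = l ^ 3 + b → l ∈ S) :
    ∃ r : NCExpr k (Fin 2),
      (∃ (n : ℕ) (X : Fin 2 → Matrix (Fin n) (Fin n) (RatFunc k)), 0 < n ∧ r.DefinedAt X) ∧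
      ∀ r' : NCExpr k (Fin 2), SameFunction (RatFunc k) r r' →
        ∀ (n : ℕ), 0 < n → ∀ (X : Fin 2 → Matrix (Fin n) (Fin n) (RatFunc k)),
          r'.DefinedAt X → ∀ c : RatFunc k, (r'.eval X).charpoly.rootMultiplicity c ≠ 1 := by
  subst hinst
  exact general h2 h3 hb S hS

end Pool.Agent.Helper84
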