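import Mathlib
import Pool.Agent.Helper84.NCDefs
import Pool.Agent.Helper84.NCSpread
import Pool.Agent.Helper84.NCExprs

set_option autoImplicit false

namespace Pool.Agent.Helper84

namespace NCExpr

variable {k g : Type} [Field k]

/-- Renaming of variables. -/
def rename {g' : Type} (f : g → g') : NCExpr k g → NCExpr k g'
  | scalar c => scalar c
  | var i => var (f i)
  | add a b => add (rename f a) (rename f b)
  | mul a b => mul (rename f a) (rename f b)
  | inv a => inv (rename f a)

theorem eval_rename {g' : Type} (f : g → g') {R : Type} [Ring R] [Algebra k R] (X : g' → R)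
    (e : NCExpr k g) : (e.rename f).eval X = e.eval (fun i => X (f i)) := by
  induction e with
  | scalar c => rfl
  | var i => rfl
  | add a b iha ihb => simp only [rename, eval, iha, ihb]
  | mul a b iha ihb => simp only [rename, eval, iha, ihb]
  | inv a iha => simp only [rename, eval, iha]

theorem defined_rename {g' : Type} (f : g → g') {R : Type} [Ring R] [Algebra k R] (X : g' → R)
    (e : NCExpr k g) : (e.rename f).DefinedAt X ↔ e.DefinedAt (fun i => X (f i)) := by
  induction e with
  | scalar c => exact Iff.rfl
  | var i => exact Iff.rfl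
  | add a b iha ihb => simp only [rename, DefinedAt, iha, ihb]
  | mul a b iha ihb => simp only [rename, DefinedAt, iha, ihb]
  | inv a iha => simp only [rename, DefinedAt, iha, eval_rename]

/-- Polynomial in an expression. -/
theorem exists_polyE (s : NCExpr k g) (p : Polynomial k) :
    ∃ e : NCExpr k g, ∀ (R : Type) [Ring R] [Algebra k R] (X : g → R),
      (s.DefinedAt X → e.DefinedAt X) ∧ e.eval X = Polynomial.aeval (s.eval X) p := by
  induction p using Polynomial.induction_on with
  | C a =>
    refine ⟨scalar a, ?_⟩
    intro R _ _ X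
    exact ⟨fun _ => trivial, by simp [eval]⟩
  | add p q hp hq =>
    obtain ⟨e1, h1⟩ := hp
    obtain ⟨e2, h2⟩ := hq
    refine ⟨add e1 e2, ?_⟩
    intro R _ _ X
    exact ⟨fun h => ⟨(h1 R X).1 h, (h2 R X).1 h⟩, by simp [eval, (h1 R X).2, (h2 R X).2]⟩
  | monomial n a h =>
    obtain ⟨e1, h1⟩ := h
    refine ⟨mul e1 s, ?_⟩
    intro R _ _ X
    refine ⟨fun h => ⟨(h1 R X).1 h, h⟩, ?_⟩
    simp only [eval, (h1 R X).2]
    rw [pow_succ, ← mul_assoc, map_mul _ _ Polynomial.X, Polynomial.aeval_X]

variable {ι : Type} [Fintype ι] [DecidableEq ι]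

/-- The generic matrices. -/
noncomputable def gen (k g ι : Type) [Field k] (i : g) :
    Matrix ι ι (MvPolynomial (g × ι × ι) k) :=
  Matrix.of fun a b => MvPolynomial.X (i, a, b)

/-- specialisation of generic matrices -/
noncomputable def spec {K : Type} [Field K] [Algebra k K] (X : g → Matrix ι ι K) :
    MvPolynomial (g × ι × ι) k →ₐ[k] K :=
  MvPolynomial.aeval (fun t => X t.1 t.2.1 t.2.2)

theorem spec_gen {K : Type} [Field K] [Algebra k K] (X : g → Matrix ι ι K) :
    (fun i => (spec (k := k) X).mapMatrix (gen k g ι i)) = X := by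
  funext i
  ext a b
  simp [spec, gen]

/-- Two expressions that agree on matrices over the infinite field `k` agree on matrices over any
extension field. -/
theorem agree_ext [Infinite k] {K : Type} [Field K] [Algebra k K] (e e' : NCExpr k g)
    (hs : ∀ X : g → Matrix ι ι k, e.DefinedAt X → e'.DefinedAt X → e.eval X = e'.eval X)
    (X : g → Matrix ι ι K) (h : e.DefinedAt X) (h' : e'.DefinedAt X) :
    e.eval X = e'.eval X := by
  have h₀ : e.DefinedAt (fun i => (spec (k := k) X).mapMatrix (gen k g ι i)) := by
    rw [spec_gen]; exact h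
  have h₁ : e'.DefinedAt (fun i => (spec (k := k) X).mapMatrix (gen k g ι i)) := by
    rw [spec_gen]; exact h'
  obtain ⟨q, N, hq, H⟩ := spread (gen k g ι) (spec (k := k) X) e h₀
  obtain ⟨q', N', hq', H'⟩ := spread (gen k g ι) (spec (k := k) X) e' h₁
  have hq0 : q ≠ 0 := by rintro rfl; simp at hq
  have hq0' : q' ≠ 0 := by rintro rfl; simp at hq'
  have key : ∀ a b, q * N' a b - q' * N a b = 0 := by
    intro a b
    have : (q * N' a b - q' * N a b) * (q * q') = 0 := by
      apply MvPolynomial.funext
      intro x
      set Y : g → Matrix ι ι k := fun i => Matrix.of fun a b => x (i, a, b) with hY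
      have hx : ∀ p : MvPolynomial (g × ι × ι) k, MvPolynomial.eval x p = spec (k := k) Y p := by
        intro p
        simp only [spec, hY, Matrix.of_apply]
        rfl
      simp only [hx]
      rw [map_mul, map_mul, map_zero]
      by_cases hc : spec (k := k) Y q = 0
      · simp [hc]
      by_cases hc' : spec (k := k) Y q' = 0
      · simp [hc']
      obtain ⟨d1, e1⟩ := H k (spec (k := k) Y) (isUnit_iff_ne_zero.mpr hc)
      obtain ⟨d2, e2⟩ := H' k (spec (k := k) Y) (isUnit_iff_ne_zero.mpr hc')
      rw [spec_gen] at d1 e1 d2 e2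
      have hE := hs _ d1 d2
      have e3 : spec (k := k) Y q' • ((spec (k := k) Y).mapMatrix N)
          = spec (k := k) Y q • ((spec (k := k) Y).mapMatrix N') := by
        rw [← e1, ← e2, hE, smul_smul, smul_smul, mul_comm]
      have e4 := congrFun (congrFun e3 a) b
      simp only [Matrix.smul_apply, AlgHom.mapMatrix_apply, Matrix.map_apply, smul_eq_mul] at e4
      rw [map_sub, map_mul, map_mul, e4, sub_self, zero_mul]
    rcases mul_eq_zero.mp this with h | h
    · exact h
    · exact absurd h (mul_ne_zero hq0 hq0')
  obtain ⟨_, e1⟩ := H K (spec (k := k) X) (isUnit_iff_ne_zero.mpr hq)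
  obtain ⟨_, e2⟩ := H' K (spec (k := k) X) (isUnit_iff_ne_zero.mpr hq')
  rw [spec_gen] at e1 e2
  have e5 : (spec (k := k) X q * spec (k := k) X q') • e.eval X
      = (spec (k := k) X q * spec (k := k) X q') • e'.eval X := by
    rw [mul_comm (spec (k := k) X q), mul_smul, e1, mul_comm (spec (k := k) X q'), mul_smul, e2]
    ext a b
    simp only [Matrix.smul_apply, AlgHom.mapMatrix_apply, Matrix.map_apply, smul_eq_mul]
    rw [← map_mul, ← map_mul, ← sub_eq_zero, ← map_sub]
    have : q' * N a b - q * N' a b = 0 := by
      have := key a b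
      linear_combination -this
    rw [this, map_zero]
  have hne : spec (k := k) X q * spec (k := k) X q' ≠ 0 := mul_ne_zero hq hq'
  have := congrArg (fun M => (spec (k := k) X q * spec (k := k) X q')⁻¹ • M) e5
  simpa only [smul_smul, inv_mul_cancel₀ hne, one_smul] using this

end NCExpr

end Pool.Agent.Helper84
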