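import Mathlib
import Pool.Agent.Helper84.NCDefs
import Pool.Agent.Helper84.NCSpread
import Pool.Agent.Helper84.NCSeries
import Pool.Agent.Helper84.NCPath
import Pool.Agent.Helper84.NCCore
import Pool.Agent.Helper84.NCTransfer

set_option autoImplicit false

namespace Pool.Agent.Helper84

open NCExpr

/-- Integrality of an eigenvalue: a root of `P - r Q` whose leading coefficient is a unit. -/
theorem specialise_sigma {k : Type} [Field k] {K : Type} [Field K] [Algebra k K]
    {O F : Type} [CommRing O] [IsDomain O] [IsIntegrallyClosed O] [Algebra k O] [Field F]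
    [Algebra O F] [IsFractionRing O F] [Algebra k F] [IsScalarTower k O F]
    (P Q : Polynomial k) (cc : O →ₐ[k] K) (hcc : ∀ x : O, cc x ≠ 0 → IsUnit x) (r : O) (σ : F)
    (eq1 : algebraMap O F r * Polynomial.aeval σ Q = Polynomial.aeval σ P)
    (hlead : algebraMap k K (P.coeff (max P.natDegree Q.natDegree))
      ≠ cc r * algebraMap k K (Q.coeff (max P.natDegree Q.natDegree))) :
    ∃ σ₀ : K, Polynomial.aeval σ₀ P = cc r * Polynomial.aeval σ₀ Q := by
  set d := max P.natDegree Q.natDegree with hd
  have hinj : Function.Injective (algebraMap O F) := IsFractionRing.injective O F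
  set T : Polynomial O := P.map (algebraMap k O) - Polynomial.C r * Q.map (algebraMap k O)
    with hT
  have hTd : T.natDegree ≤ d := by
    refine (Polynomial.natDegree_sub_le _ _).trans ?_
    rw [hd]
    refine max_le_max ?_ ?_
    · exact Polynomial.natDegree_map_le
    · exact (Polynomial.natDegree_C_mul_le _ _).trans Polynomial.natDegree_map_le
  have hu : IsUnit (T.coeff d) := by
    apply hcc
    rw [hT, Polynomial.coeff_sub, Polynomial.coeff_C_mul, Polynomial.coeff_map,
      Polynomial.coeff_map, map_sub, map_mul, AlgHom.commutes, AlgHom.commutes]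
    exact sub_ne_zero.mpr hlead
  have hTn : T.natDegree = d := by
    apply le_antisymm hTd
    exact Polynomial.le_natDegree_of_ne_zero hu.ne_zero
  obtain ⟨u, hu'⟩ := hu
  have hmonic : (Polynomial.C ((u⁻¹ : Oˣ) : O) * T).Monic := by
    apply Polynomial.monic_C_mul_of_mul_leadingCoeff_eq_one
    rw [Polynomial.leadingCoeff, hTn, ← hu', Units.inv_mul]
  have hevP : ∀ p : Polynomial k, Polynomial.eval₂ (algebraMap O F) σ (p.map (algebraMap k O))
      = Polynomial.aeval σ p := by
    intro p
    rw [Polynomial.eval₂_map, Polynomial.aeval_def, IsScalarTower.algebraMap_eq k O F]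
  have hint : IsIntegral O σ := by
    refine ⟨_, hmonic, ?_⟩
    rw [Polynomial.eval₂_mul, hT, Polynomial.eval₂_sub, Polynomial.eval₂_mul, Polynomial.eval₂_C,
      Polynomial.eval₂_C, hevP, hevP, eq1, sub_self, mul_zero]
  obtain ⟨s1, rfl⟩ := IsIntegrallyClosed.isIntegral_iff.mp hint
  refine ⟨cc s1, ?_⟩
  have e1 : r * Polynomial.aeval s1 Q = Polynomial.aeval s1 P := by
    apply hinj
    rw [map_mul, ← Polynomial.aeval_algebraMap_apply, ← Polynomial.aeval_algebraMap_apply]
    exact eq1
  have := congrArg cc e1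
  rw [map_mul, ← Polynomial.aeval_algHom_apply, ← Polynomial.aeval_algHom_apply] at this
  exact this.symm

/-- The main local argument for compositions. -/
theorem exists_sigma {k : Type} [Field k] [Infinite k] {g : Type} {K : Type} [Field K]
    [Algebra k K] {ι : Type} [Fintype ι] [DecidableEq ι]
    (r s : NCExpr k g) (P Q : Polynomial k)
    (hs : ∀ X : g → Matrix ι ι k, r.DefinedAt X → s.DefinedAt X →
      r.eval X * Polynomial.aeval (s.eval X) Q = Polynomial.aeval (s.eval X) P)
    (X₀ X₁ : g → Matrix ι ι K) (h₀ : r.DefinedAt X₀) (h₁ : s.DefinedAt X₁)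
    (h₂ : IsUnit (Polynomial.aeval (s.eval X₁) Q))
    (c : K) (hmult : (r.eval X₀).charpoly.rootMultiplicity c = 1)
    (hlead : algebraMap k K (P.coeff (max P.natDegree Q.natDegree))
      ≠ c * algebraMap k K (Q.coeff (max P.natDegree Q.natDegree))) :
    ∃ σ : K, Polynomial.aeval σ P = c * Polynomial.aeval σ Q := by
  obtain ⟨eQ, heQ⟩ := exists_polyE s Q
  obtain ⟨eP, heP⟩ := exists_polyE s P
  have hagree : ∀ (L : Type) [Field L] [Algebra k L] (X : g → Matrix ι ι L), r.DefinedAt X →
      s.DefinedAt X →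
      r.eval X * Polynomial.aeval (s.eval X) Q = Polynomial.aeval (s.eval X) P := by
    intro L _ _ X hr hsX
    have h := agree_ext (ι := ι) (K := L) (add (mul r eQ) (mul (scalar 0) s)) eP
      (by
        intro Y hY _
        simp only [eval]
        rw [(heQ _ Y).2, (heP _ Y).2, hs Y hY.1.1 hY.2.2, map_zero, zero_mul, add_zero])
      X ⟨⟨hr, (heQ _ X).1 hsX⟩, ⟨trivial, hsX⟩⟩ ((heP _ X).1 hsX)
    simp only [eval] at h
    rw [(heQ _ X).2, (heP _ X).2, map_zero, zero_mul, add_zero] at h
    exact h
  -- spreading out along the path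
  have hr0 : r.DefinedAt (fun i => (evAt k (0 : K)).mapMatrix (path X₀ X₁ i)) := by
    rw [path_zero]; exact h₀
  have ht1 : (mul s (inv eQ)).DefinedAt
      (fun i => (evAt k (1 : K)).mapMatrix (path X₀ X₁ i)) := by
    rw [path_one]
    exact ⟨h₁, (heQ _ _).1 h₁, by rw [(heQ _ _).2]; exact h₂⟩
  obtain ⟨q', N', hq', H'⟩ := spread (path X₀ X₁) (evAt k (0 : K)) r hr0
  obtain ⟨q, N, hq, H⟩ := spread (path X₀ X₁) (evAt k (1 : K)) (mul s (inv eQ)) ht1
  rw [evAt_apply] at hq hq'
  set O := PowerSeries K with hO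
  set F := FractionRing O with hF
  set ψO : Polynomial K →ₐ[k] O := polyHom k K with hψO
  set ψF : Polynomial K →ₐ[k] F := (IsScalarTower.toAlgHom k O F).comp ψO with hψF
  have hinj : Function.Injective ψF := by
    have h1 : Function.Injective (IsScalarTower.toAlgHom k O F) := IsFractionRing.injective O F
    have h2 : Function.Injective ψO := by
      intro p p' h
      have : (Polynomial.coeToPowerSeries.algHom K) p
        = (Polynomial.coeToPowerSeries.algHom K) p' := h
      simp only [Polynomial.coeToPowerSeries.algHom_apply] at this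
      simpa using this
    exact h1.comp h2
  have hq'0 : q' ≠ 0 := by rintro rfl; simp at hq'
  have hq0 : q ≠ 0 := by rintro rfl; simp at hq
  have huO : IsUnit (ψO q') := by
    rw [PowerSeries.isUnit_iff_constantCoeff, isUnit_iff_ne_zero]
    have : PowerSeries.constantCoeff (ψO q') = q'.eval 0 := cc_poly (k := k) q'
    rw [this]; exact hq'
  obtain ⟨dO, eO⟩ := H' O ψO huO
  set RO : Matrix ι ι O := r.eval (fun i => ψO.mapMatrix (path X₀ X₁ i)) with hRO
  -- reduction
  have hred : (ccHom k K).mapMatrix RO = r.eval X₀ := by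
    have := (eval_map ((ccHom k K).mapMatrix : Matrix ι ι O →ₐ[k] Matrix ι ι K)
      (fun i => ψO.mapMatrix (path X₀ X₁ i)) r dO).2
    rw [← hRO] at this
    rw [← this]
    congr 1
    refine Eq.trans ?_ (path_zero (k := k) X₀ X₁)
    funext i
    ext a b'
    simp only [AlgHom.mapMatrix_apply, Matrix.map_apply]
    rw [evAt_apply (k := k)]
    exact (cc_poly (k := k) (K := K) _)
  have hchar : RO.charpoly.map (PowerSeries.constantCoeff (R := K)) = (r.eval X₀).charpoly := by
    rw [← hred]
    exact (Matrix.charpoly_map RO (PowerSeries.constantCoeff (R := K))).symm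
  obtain ⟨ρ, hr1, hr2, hr3⟩ := exists_lift_root RO.charpoly RO.charpoly_monic c
    (by rw [hchar]; exact hmult)
  -- pass to the fraction field
  set φ : O →ₐ[k] F := IsScalarTower.toAlgHom k O F with hφ
  have hφinj : Function.Injective φ := IsFractionRing.injective O F
  have hRF := eval_map (φ.mapMatrix : Matrix ι ι O →ₐ[k] Matrix ι ι F)
    (fun i => ψO.mapMatrix (path X₀ X₁ i)) r dO
  have hXF : (fun i => φ.mapMatrix (ψO.mapMatrix (path X₀ X₁ i)))
      = (fun i => ψF.mapMatrix (path X₀ X₁ i)) := by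
    funext i
    ext a b'
    simp [hψF, hφ]
  rw [hXF] at hRF
  obtain ⟨dF, eF⟩ := H F ψF (isUnit_iff_ne_zero.mpr (by
    rw [Ne, map_eq_zero_iff _ hinj]; exact hq0))
  set XF : g → Matrix ι ι F := fun i => ψF.mapMatrix (path X₀ X₁ i) with hXFdef
  set RF : Matrix ι ι F := r.eval XF with hRFdef
  have hRF2 : RF = φ.mapMatrix RO := hRF.2
  have hcharF : RF.charpoly = RO.charpoly.map (φ : O →+* F) := by
    rw [hRF2]
    exact Matrix.charpoly_map RO (φ : O →+* F)
  have hroot : RF.charpoly.IsRoot (φ ρ) := by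
    have h1 : Polynomial.eval ρ RO.charpoly = 0 := hr1
    have h2 : (φ : O →+* F) ρ = φ ρ := rfl
    rw [hcharF, Polynomial.IsRoot, Polynomial.eval_map, ← h2, Polynomial.eval₂_hom, h1, map_zero]
  have hder : ¬ (Polynomial.derivative RF.charpoly).IsRoot (φ ρ) := by
    have h2 : (φ : O →+* F) ρ = φ ρ := rfl
    rw [hcharF, Polynomial.derivative_map, Polynomial.IsRoot, Polynomial.eval_map, ← h2,
      Polynomial.eval₂_hom]
    exact (hr3.map (φ : O →+* F)).ne_zero
  obtain ⟨v, hv0, hv1, hv2⟩ := exists_common_eigenvector RF (φ ρ) hroot hder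
  have hSd : s.DefinedAt XF := dF.1
  set SF : Matrix ι ι F := s.eval XF with hSF
  have hQu : IsUnit (Polynomial.aeval SF Q) := by
    have := dF.2.2
    rwa [(heQ _ _).2] at this
  have hrel : RF * Polynomial.aeval SF Q = Polynomial.aeval SF P := hagree F XF hRF.1 hSd
  have hcommp : ∀ p : Polynomial k, Commute SF (Polynomial.aeval SF p) := by
    intro p
    have h1 : Commute (Polynomial.aeval SF (Polynomial.X : Polynomial k))
        (Polynomial.aeval SF p) := (Commute.all Polynomial.X p).map (Polynomial.aeval SF)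
    rwa [Polynomial.aeval_X] at h1
  have hRS : RF * SF = SF * RF := by
    obtain ⟨w, hw⟩ := hQu
    have hRw : RF = Polynomial.aeval SF P * ((w⁻¹ : (Matrix ι ι F)ˣ) : Matrix ι ι F) := by
      rw [← hrel, ← hw, mul_assoc, Units.mul_inv, mul_one]
    have hc1 : Commute SF (w : Matrix ι ι F) := by rw [hw]; exact hcommp Q
    rw [hRw]
    exact ((hcommp P).mul_right hc1.units_inv_right).eq.symm
  obtain ⟨σ, hσ⟩ := hv2 SF hRS
  have hvcancel : ∀ a a' : F, a • v = a' • v → a = a' := by
    intro a a' h
    obtain ⟨i, hi⟩ : ∃ i, v i ≠ 0 := by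
      by_contra hcon
      push Not at hcon
      exact hv0 (funext hcon)
    have := congrFun h i
    simp only [Pi.smul_apply, smul_eq_mul] at this
    exact mul_right_cancel₀ hi this
  have eq1 : φ ρ * Polynomial.aeval σ Q = Polynomial.aeval σ P := by
    apply hvcancel
    rw [← mulVec_aeval SF v σ hσ P, ← hrel, ← Matrix.mulVec_mulVec, mulVec_aeval SF v σ hσ Q,
      Matrix.mulVec_smul, hv1, smul_smul, mul_comm]
  obtain ⟨σ₀, hσ₀⟩ := specialise_sigma (K := K) (O := O) (F := F) P Q (ccHom k K)
    (by
      intro x hx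
      rw [PowerSeries.isUnit_iff_constantCoeff, isUnit_iff_ne_zero]
      exact hx) ρ σ eq1
    (by
      have : ccHom k K ρ = c := hr2
      rw [this]; exact hlead)
  have : ccHom k K ρ = c := hr2
  rw [this] at hσ₀
  exact ⟨σ₀, hσ₀⟩

end Pool.Agent.Helper84
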