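import Mathlib
import Pool.Agent.Helper84.NCDefs
import Pool.Agent.Helper84.NCExprs
import Pool.Agent.Helper84.NCPath
import Pool.Agent.Helper84.NCFinal
import Pool.Agent.Helper84.NCTransfer
import Pool.Agent.Helper84.NCSigma
import Pool.Agent.Helper84.NCField
import Pool.Agent.Helper84.NCFamily2

set_option autoImplicit false

namespace Pool.Agent.Helper84

open NCExpr

section

variable {k : Type} [Field k]

/-- The function field of the curve. -/
theorem exists_curve_field (h2 : (2 : k) ≠ 0) (h3 : (3 : k) ≠ 0) {b : k} (hb : b ≠ 0) :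
    ∃ (E : Type) (_ : Field E) (_ : Algebra k E) (ι : RatFunc k →ₐ[k] E) (m : E),
      m ^ 2 = (ι RatFunc.X) ^ 3 + algebraMap k E b ∧
      ∀ z : E, ∃ a c : RatFunc k, z = ι a + ι c * m := by
  classical
  set p : Polynomial (RatFunc k) :=
    Polynomial.X ^ 2 - Polynomial.C (RatFunc.X ^ 3 + algebraMap k (RatFunc k) b) with hp
  have hmonic : p.Monic := Polynomial.monic_X_pow_sub_C _ (by norm_num)
  have hdeg : p.natDegree = 2 := Polynomial.natDegree_X_pow_sub_C
  have hirr : Irreducible p := by
    rw [Polynomial.Monic.irreducible_iff_roots_eq_zero_of_degree_le_three hmonic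
      (by rw [hdeg]) (by rw [hdeg]; norm_num)]
    rw [Multiset.eq_zero_iff_forall_notMem]
    intro μ hμ
    rw [Polynomial.mem_roots hmonic.ne_zero, Polynomial.IsRoot, hp] at hμ
    simp only [Polynomial.eval_sub, Polynomial.eval_pow, Polynomial.eval_X,
      Polynomial.eval_C] at hμ
    obtain ⟨l₀, _, hl, _, _⟩ := ratfunc_points h2 h3 hb RatFunc.X μ (by linear_combination hμ)
    apply RatFunc.transcendental_X (K := k)
    rw [hl]
    exact isAlgebraic_algebraMap _
  have : Fact (Irreducible p) := ⟨hirr⟩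
  let ι : RatFunc k →ₐ[k] AdjoinRoot p := IsScalarTower.toAlgHom k (RatFunc k) (AdjoinRoot p)
  refine ⟨AdjoinRoot p, inferInstance, inferInstance, ι, AdjoinRoot.root p, ?_, ?_⟩
  · have h0 : ∀ q : Polynomial (RatFunc k), q = p →
        Polynomial.eval₂ (AdjoinRoot.of p) (AdjoinRoot.root p) q = 0 := by
      intro q hq
      rw [hq]
      exact AdjoinRoot.eval₂_root p
    have h := h0 _ hp.symm
    rw [Polynomial.eval₂_sub, Polynomial.eval₂_X_pow, Polynomial.eval₂_C] at h
    have h4 : AdjoinRoot.of p (RatFunc.X ^ 3 + algebraMap k (RatFunc k) b)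
        = ι RatFunc.X ^ 3 + algebraMap k (AdjoinRoot p) b := by
      rw [map_add, map_pow]
      congr 1
    rw [← h4]
    exact sub_eq_zero.mp h
  · intro z
    obtain ⟨q, rfl⟩ := AdjoinRoot.mk_surjective z
    have h1 : AdjoinRoot.mk p q = AdjoinRoot.mk p (q %ₘ p) := by
      rw [AdjoinRoot.mk_eq_mk]
      rw [Polynomial.modByMonic_eq_sub_mul_div q p]
      simp
    have h5 : (q %ₘ p).natDegree ≤ 1 := by
      have := Polynomial.natDegree_modByMonic_lt q hmonic (by
        intro h; rw [h] at hdeg; simp at hdeg)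
      omega
    obtain ⟨c, a, hca⟩ := Polynomial.exists_eq_X_add_C_of_natDegree_le_one h5
    refine ⟨a, c, ?_⟩
    rw [h1, hca, map_add, map_mul, AdjoinRoot.mk_X, AdjoinRoot.mk_C, AdjoinRoot.mk_C, add_comm]
    rfl

/-- Amplification. -/
noncomputable def ampHom (k : Type) [Field k] (n m : ℕ) :
    Matrix (Fin n) (Fin n) k →ₐ[k] Matrix (Fin n × Fin m) (Fin n × Fin m) k where
  toFun A := Matrix.blockDiagonal (fun _ : Fin m => A)
  map_one' := Matrix.blockDiagonal_one
  map_mul' A B := Matrix.blockDiagonal_mul _ _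
  map_zero' := Matrix.blockDiagonal_zero
  map_add' A B := Matrix.blockDiagonal_add _ _
  commutes' c := by
    ext ⟨i, i'⟩ ⟨j, j'⟩
    simp only [Matrix.blockDiagonal_apply, Matrix.algebraMap_eq_diagonal, Matrix.diagonal_apply]
    by_cases h : i = j <;> by_cases h' : i' = j' <;> simp [h, h']

/-- The relation holds for all index types. -/
theorem relation_index {g : Type} (r s : NCExpr k g) (P Q : Polynomial k)
    (hrel : ∀ (n : ℕ) (X : g → Matrix (Fin n) (Fin n) k), r.DefinedAt X → s.DefinedAt X →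
      r.eval X * Polynomial.aeval (s.eval X) Q = Polynomial.aeval (s.eval X) P)
    {α : Type} [Fintype α] [DecidableEq α] (X : g → Matrix α α k) (h1 : r.DefinedAt X)
    (h2 : s.DefinedAt X) :
    r.eval X * Polynomial.aeval (s.eval X) Q = Polynomial.aeval (s.eval X) P := by
  let f := Fintype.equivFin α
  have a1 := eval_reindex f X r h1
  have a2 := eval_reindex f X s h2
  have h := hrel _ _ a1.1 a2.1
  rw [a1.2, a2.2] at h
  apply (Matrix.reindexAlgEquiv k k f).injective
  rw [map_mul]
  have h3 : ∀ p : Polynomial k, (Matrix.reindexAlgEquiv k k f) (Polynomial.aeval (s.eval X) p)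
      = Polynomial.aeval ((Matrix.reindexAlgEquiv k k f) (s.eval X)) p := by
    intro p
    exact (Polynomial.aeval_algHom_apply (Matrix.reindexAlgEquiv k k f) (s.eval X) p).symm
  rw [h3, h3]
  exact h

theorem lamE_of_rE {K : Type} [Field K] [Algebra k K] {ι : Type} [Fintype ι] [DecidableEq ι]
    (b : k) (S : List k) (X : Fin 2 → Matrix ι ι K) (h : (rE b S).DefinedAt X) :
    (lamE b).DefinedAt X := by
  rw [defined_rE] at h
  rw [defined_lamE]
  exact h.1

/-- `Lam` is not a composition, except with Moebius functions. -/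
theorem indecomposable [Infinite k] (h2 : (2 : k) ≠ 0) (h3 : (3 : k) ≠ 0) {b : k} (hb : b ≠ 0)
    {g : Type} (e : Fin 2 → g) (he : Function.Injective e) (f : RatFunc k) (s : NCExpr k g)
    (hden : ∃ (n : ℕ) (X : g → Matrix (Fin n) (Fin n) k), 0 < n ∧ s.DefinedAt X ∧
      IsUnit (Polynomial.aeval (s.eval X) f.denom))
    (hrel : ∀ (n : ℕ) (X : g → Matrix (Fin n) (Fin n) k), ((lamE b).rename e).DefinedAt X →
      s.DefinedAt X → ((lamE b).rename e).eval X * Polynomial.aeval (s.eval X) f.denom
        = Polynomial.aeval (s.eval X) f.num) :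
    max f.num.natDegree f.denom.natDegree = 1 := by
  classical
  obtain ⟨E, iF, iA, ι, m, hm, hgen⟩ := exists_curve_field h2 h3 hb
  have hιinj : Function.Injective ι := (ι : RatFunc k →+* E).injective
  have hL : Transcendental k (ι RatFunc.X) := by
    rw [transcendental_iff_injective]
    have h1 : Function.Injective (Polynomial.aeval (RatFunc.X : RatFunc k) :
        Polynomial k →ₐ[k] RatFunc k) := transcendental_iff_injective.mp RatFunc.transcendental_X
    have : (Polynomial.aeval (ι RatFunc.X) : Polynomial k →ₐ[k] E)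
        = ι.comp (Polynomial.aeval RatFunc.X) := by
      ext; simp
    rw [this]
    exact hιinj.comp h1
  set L : E := ι RatFunc.X with hLdef
  have hpoly : ∀ p : Polynomial k, p ≠ 0 → Polynomial.aeval L p ≠ 0 := by
    intro p hp h
    exact hL ⟨p, hp, h⟩
  have h20 : (2 : E) ≠ 0 := by
    intro h
    apply h2
    apply (algebraMap k E).injective
    rw [map_ofNat, map_zero, h]
  have h30 : (3 : k) ≠ 0 := h3
  have hm0 : m ≠ 0 := by
    intro h
    rw [h] at hm
    have h4 := hpoly (Polynomial.X ^ 3 + Polynomial.C b) (by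
      intro h5
      have := congrArg (fun p => Polynomial.coeff p 3) h5
      simp [Polynomial.coeff_X_pow, Polynomial.coeff_C] at this)
    apply h4
    simp only [map_add, map_pow, Polynomial.aeval_X, Polynomial.aeval_C]
    rw [← hm]
    ring
  have hD0 : L ^ 2 + 1 ≠ 0 := by
    have h4 := hpoly (Polynomial.X ^ 2 + Polynomial.C 1) (by
      intro h5
      have := congrArg (fun p => Polynomial.coeff p 0) h5
      simp [Polynomial.coeff_X_pow] at this)
    simpa using h4
  have h32 : 3 * L ^ 2 + 2 ≠ 0 := by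
    have h4 := hpoly (Polynomial.C 3 * Polynomial.X ^ 2 + Polynomial.C 2) (by
      intro h5
      have := congrArg (fun p => Polynomial.coeff p 0) h5
      simp [Polynomial.coeff_X_pow, Polynomial.coeff_C] at this
      exact h2 this)
    simpa [map_ofNat] using h4
  obtain ⟨n₁, X₁, hn₁, hX₁, hQ₁⟩ := hden
  -- the constant block
  obtain ⟨W, hW⟩ := good_all (K := k) h2 b [] (5 * n₁ - 5)
  have hWl : (lamE b).DefinedAt W := lamE_of_rE b [] W hW
  have hWE := eval_map ((Algebra.ofId k E).mapMatrix :
    Matrix (Fin (5 * n₁ - 5 + 2)) (Fin (5 * n₁ - 5 + 2)) k →ₐ[k] _) W (lamE b) hWl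
  -- the moving block
  obtain ⟨hu3, hΛ3, hM3⟩ := X3E_spec h20 b L m hm0 hD0 hm
  obtain ⟨R, hR1, hR2⟩ := X3E_charpoly h20 b L m hm0 hD0 hm
  have h3d : (lamE b).DefinedAt (X3E L m) := by rw [defined_lamE]; exact hu3
  have hblock := eval_fromBlocks (X3E L m)
    (fun i => (Algebra.ofId k E).mapMatrix (W i)) (lamE b) h3d hWE.1
  -- index types
  have hcard : Fintype.card (Fin 3 ⊕ Fin (5 * n₁ - 5 + 2)) = Fintype.card (Fin n₁ × Fin 5) := by
    simp only [Fintype.card_sum, Fintype.card_fin, Fintype.card_prod]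
    omega
  let φ : Fin 3 ⊕ Fin (5 * n₁ - 5 + 2) ≃ Fin n₁ × Fin 5 := Fintype.equivOfCardEq hcard
  have hre := eval_reindex φ _ (lamE b) hblock.1
  set Y : Fin 2 → Matrix (Fin n₁ × Fin 5) (Fin n₁ × Fin 5) E := fun i =>
    Matrix.reindexAlgEquiv k E φ (Matrix.fromBlocks (X3E L m i) 0 0
      ((Algebra.ofId k E).mapMatrix (W i))) with hY
  let X₀ : g → Matrix (Fin n₁ × Fin 5) (Fin n₁ × Fin 5) E := Function.extend e Y 0
  have hX₀ : (fun i => X₀ (e i)) = Y := by
    funext i
    exact he.extend_apply Y 0 i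
  have hr0 : ((lamE b).rename e).DefinedAt X₀ := by
    rw [defined_rename, hX₀]
    exact hre.1
  -- multiplicity
  have hchar : (((lamE b).rename e).eval X₀).charpoly
      = (Polynomial.X - Polynomial.C L) * (R *
        (((lamE b).eval W).charpoly.map (algebraMap k E))) := by
    rw [eval_rename, hX₀, hre.2, hblock.2]
    have h5 : (Matrix.reindexAlgEquiv k E φ (Matrix.fromBlocks ((lamE b).eval (X3E L m)) 0 0
        ((lamE b).eval fun i => (Algebra.ofId k E).mapMatrix (W i)))).charpoly
        = (Matrix.fromBlocks ((lamE b).eval (X3E L m)) 0 0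
        ((lamE b).eval fun i => (Algebra.ofId k E).mapMatrix (W i))).charpoly :=
      Matrix.charpoly_reindex φ _
    rw [h5, Matrix.charpoly_fromBlocks_zero₁₂, hR1, hWE.2]
    have h6 : ((Algebra.ofId k E).mapMatrix ((lamE b).eval W)).charpoly
        = ((lamE b).eval W).charpoly.map (algebraMap k E) :=
      Matrix.charpoly_map ((lamE b).eval W) (algebraMap k E)
    rw [h6]
    ring
  have hmult : (((lamE b).rename e).eval X₀).charpoly.rootMultiplicity L = 1 := by
    have hne : R * (((lamE b).eval W).charpoly.map (algebraMap k E)) ≠ 0 := by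
      intro h
      rw [h, mul_zero] at hchar
      exact (Matrix.charpoly_monic _).ne_zero hchar
    rw [hchar, Polynomial.rootMultiplicity_mul
      (mul_ne_zero (Polynomial.X_sub_C_ne_zero L) hne), Polynomial.rootMultiplicity_X_sub_C_self,
      Polynomial.rootMultiplicity_eq_zero]
    rw [Polynomial.IsRoot, Polynomial.eval_mul, hR2]
    refine mul_ne_zero h32 ?_
    rw [Polynomial.eval_map, ← Polynomial.aeval_def]
    exact hpoly _ (Matrix.charpoly_monic _).ne_zero
  -- the target point
  have hamp := eval_map (ampHom k n₁ 5) X₁ s hX₁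
  have hampE := eval_map ((Algebra.ofId k E).mapMatrix :
    Matrix (Fin n₁ × Fin 5) (Fin n₁ × Fin 5) k →ₐ[k] _) _ s hamp.1
  have hQE : IsUnit (Polynomial.aeval (s.eval fun i => (Algebra.ofId k E).mapMatrix
      (ampHom k n₁ 5 (X₁ i))) f.denom) := by
    rw [hampE.2, hamp.2, Polynomial.aeval_algHom_apply, Polynomial.aeval_algHom_apply]
    exact (hQ₁.map _).map _
  obtain ⟨σ, hσ⟩ := exists_sigma ((lamE b).rename e) s f.num f.denom
    (fun X h1 h2 => relation_index _ s f.num f.denom hrel X h1 h2) X₀ _ hr0 hampE.1 hQE L hmult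
    (lead_ne f L hL)
  exact degree_one_of_point h2 h3 hb ι m hm hgen f σ hσ

end

end Pool.Agent.Helper84
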