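import Mathlib
import Pool.Agent.Helper84.NCDefs
import Pool.Agent.Helper84.NCExprs
import Pool.Agent.Helper84.NCPath
import Pool.Agent.Helper84.NCFinal
import Pool.Agent.Helper84.NCTransfer
import Pool.Agent.Helper84.NCFamily2
import Pool.Agent.Helper84.NCIndec

set_option autoImplicit false

namespace Pool.Agent.Helper84

open NCExpr

section

variable {k : Type} [Field k]

/-- A polynomial detecting that the value of an expression plus `ν` is invertible. -/
theorem detect {g : Type} {ι : Type} [Fintype ι] [DecidableEq ι] (t : NCExpr k g)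
    (X₀ : g → Matrix ι ι k) (h₀ : t.DefinedAt X₀) (ν : k)
    (h₁ : (t.eval X₀ + ν • (1 : Matrix ι ι k)).det ≠ 0) :
    ∃ p : MvPolynomial (g × ι × ι) k, spec (k := k) X₀ p ≠ 0 ∧
      ∀ X : g → Matrix ι ι k, spec (k := k) X p ≠ 0 →
        t.DefinedAt X ∧ (t.eval X + ν • (1 : Matrix ι ι k)).det ≠ 0 := by
  have h0 : t.DefinedAt (fun i => (spec (k := k) X₀).mapMatrix (gen k g ι i)) := by
    rw [spec_gen]; exact h₀
  obtain ⟨q, N, hq, H⟩ := spread (gen k g ι) (spec (k := k) X₀) t h0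
  have key : ∀ X : g → Matrix ι ι k, spec (k := k) X q ≠ 0 →
      spec (k := k) X (N + (MvPolynomial.C ν * q) • (1 : Matrix ι ι _)).det
        = (spec (k := k) X q) ^ (Fintype.card ι) * (t.eval X + ν • (1 : Matrix ι ι k)).det := by
    intro X hX
    obtain ⟨_, e1⟩ := H k (spec (k := k) X) (isUnit_iff_ne_zero.mpr hX)
    rw [spec_gen] at e1
    have h1 : spec (k := k) X (N + (MvPolynomial.C ν * q) • (1 : Matrix ι ι _)).det
        = ((spec (k := k) X).mapMatrix (N + (MvPolynomial.C ν * q) • (1 : Matrix ι ι _))).det := by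
      simpa using AlgHom.map_det (spec (k := k) X) (N + (MvPolynomial.C ν * q) • (1 : Matrix ι ι _))
    have h2 : (spec (k := k) X).mapMatrix (N + (MvPolynomial.C ν * q) • (1 : Matrix ι ι _))
        = spec (k := k) X q • (t.eval X + ν • (1 : Matrix ι ι k)) := by
      rw [map_add, ← e1, smul_add]
      congr 1
      ext i j
      by_cases hij : i = j
      · subst hij
        simp [spec, mul_comm]
      · simp [hij]
    rw [h1, h2, Matrix.det_smul]
  refine ⟨q * (N + (MvPolynomial.C ν * q) • (1 : Matrix ι ι _)).det, ?_, ?_⟩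
  · rw [map_mul, key X₀ hq]
    exact mul_ne_zero hq (mul_ne_zero (pow_ne_zero _ hq) h₁)
  · intro X hX
    rw [map_mul] at hX
    have hqX : spec (k := k) X q ≠ 0 := left_ne_zero_of_mul hX
    have h2 := right_ne_zero_of_mul hX
    rw [key X hqX] at h2
    obtain ⟨d1, _⟩ := H k (spec (k := k) X) (isUnit_iff_ne_zero.mpr hqX)
    rw [spec_gen] at d1
    exact ⟨d1, right_ne_zero_of_mul h2⟩

/-- The special points of a level set. -/
theorem special_point (h2 : (2 : k) ≠ 0) (b : k) {g : Type} (e : Fin 2 → g)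
    (he : Function.Injective e) (p : ℕ) (W : Fin 2 → Matrix (Fin (p + 2)) (Fin (p + 2)) k)
    (hW : (lamE b).DefinedAt W) (c ν : k) (hν : ν ^ 2 = c ^ 3 + b) (hν0 : ν ≠ 0)
    (hD : c ^ 2 + 1 ≠ 0) (h4 : 4 * ν ^ 4 + 6 * c * ν ^ 2 + 3 * c ^ 2 ≠ 0)
    (hWd : ((muE b).eval W + ν • (1 : Matrix _ _ k)).det ≠ 0) :
    ∃ X : g → Matrix (Fin (p + 5)) (Fin (p + 5)) k,
      ((lamE b).rename e).DefinedAt X ∧ ((muE b).rename e).DefinedAt X ∧
      (((lamE b).rename e).eval X - c • (1 : Matrix _ _ k)).det = 0 ∧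
      (((muE b).rename e).eval X + ν • (1 : Matrix _ _ k)).det ≠ 0 := by
  classical
  have hcurve : ν ^ 2 = c ^ 3 + algebraMap k k b := hν
  obtain ⟨hu3, hΛ3, hM3⟩ := X3E_spec h2 b c ν hν0 hD hcurve
  have hdet3 := X3E_det h2 b c ν hν0 hD hcurve
  have h3d : (lamE b).DefinedAt (X3E c ν) := by rw [defined_lamE]; exact hu3
  have h3m : (muE b).DefinedAt (X3E c ν) := by rw [defined_muE]; exact hu3
  have hWm : (muE b).DefinedAt W := by rw [defined_muE]; rwa [defined_lamE] at hW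
  have hb1 := eval_fromBlocks (X3E c ν) W (lamE b) h3d hW
  have hb2 := eval_fromBlocks (X3E c ν) W (muE b) h3m hWm
  have hcard : Fintype.card (Fin 3 ⊕ Fin (p + 2)) = Fintype.card (Fin (p + 5)) := by
    simp only [Fintype.card_sum, Fintype.card_fin]
    omega
  let φ : Fin 3 ⊕ Fin (p + 2) ≃ Fin (p + 5) := Fintype.equivOfCardEq hcard
  have hre1 := eval_reindex φ _ (lamE b) hb1.1
  have hre2 := eval_reindex φ _ (muE b) hb2.1
  set Y : Fin 2 → Matrix (Fin (p + 5)) (Fin (p + 5)) k := fun i =>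
    Matrix.reindexAlgEquiv k k φ (Matrix.fromBlocks (X3E c ν i) 0 0 (W i)) with hY
  let X : g → Matrix (Fin (p + 5)) (Fin (p + 5)) k := Function.extend e Y 0
  have hX : (fun i => X (e i)) = Y := by
    funext i
    exact he.extend_apply Y 0 i
  have hsm : ∀ a : k, a • (1 : Matrix (Fin (p + 5)) (Fin (p + 5)) k)
      = Matrix.reindexAlgEquiv k k φ (a • (1 : Matrix (Fin 3 ⊕ Fin (p + 2)) _ k)) := by
    intro a
    rw [map_smul, map_one]
  have hsb : ∀ a : k, a • (1 : Matrix (Fin 3 ⊕ Fin (p + 2)) (Fin 3 ⊕ Fin (p + 2)) k)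
      = Matrix.fromBlocks (a • (1 : Matrix (Fin 3) (Fin 3) k)) 0 0 (a • 1) := by
    intro a
    rw [← Matrix.fromBlocks_one, Matrix.fromBlocks_smul, smul_zero, smul_zero]
  have hdetre : ∀ A : Matrix (Fin 3 ⊕ Fin (p + 2)) (Fin 3 ⊕ Fin (p + 2)) k,
      (Matrix.reindexAlgEquiv k k φ A).det = A.det := by
    intro A
    exact Matrix.det_reindexAlgEquiv k k φ A
  refine ⟨X, ?_, ?_, ?_, ?_⟩
  · rw [defined_rename, hX]; exact hre1.1
  · rw [defined_rename, hX]; exact hre2.1
  · rw [eval_rename, hX, hre1.2, hsm, ← map_sub, hdetre, hb1.2, hsb, sub_eq_add_neg,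
      Matrix.fromBlocks_neg, neg_zero, neg_zero, Matrix.fromBlocks_add, add_zero, add_zero,
      Matrix.det_fromBlocks_zero₁₂]
    have : ((lamE b).eval (X3E c ν) + -(c • (1 : Matrix (Fin 3) (Fin 3) k))).det = 0 := by
      apply Matrix.det_eq_zero_of_column_eq_zero 0
      intro i
      rw [hΛ3]
      fin_cases i <;> simp
    rw [this, zero_mul]
  · rw [eval_rename, hX, hre2.2, hsm, ← map_add, hdetre, hb2.2, hsb,
      Matrix.fromBlocks_add, add_zero, add_zero, Matrix.det_fromBlocks_zero₁₂]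
    refine mul_ne_zero ?_ hWd
    intro h
    rw [h, mul_zero] at hdet3
    exact (mul_ne_zero h2 h4) hdet3.symm

/-- The level sets of `Lam` are reducible. -/
theorem level_reducible [IsAlgClosed k] (h2 : (2 : k) ≠ 0) (b : k) {g : Type} (e : Fin 2 → g)
    (he : Function.Injective e) (p : ℕ) :
    ∃ S : Finset k, ∀ c ∉ S, ∃ (P₁ P₂ : MvPolynomial (g × Fin (p + 5) × Fin (p + 5)) k)
      (X₁ X₂ : g → Matrix (Fin (p + 5)) (Fin (p + 5)) k),
      (((lamE b).rename e).DefinedAt X₁ ∧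
        (((lamE b).rename e).eval X₁ - c • (1 : Matrix _ _ k)).det = 0 ∧
        spec (k := k) X₁ P₁ ≠ 0) ∧
      (((lamE b).rename e).DefinedAt X₂ ∧
        (((lamE b).rename e).eval X₂ - c • (1 : Matrix _ _ k)).det = 0 ∧
        spec (k := k) X₂ P₂ ≠ 0) ∧
      ∀ X : g → Matrix (Fin (p + 5)) (Fin (p + 5)) k, spec (k := k) X P₁ ≠ 0 →
        spec (k := k) X P₂ ≠ 0 → ((lamE b).rename e).DefinedAt X ∧
          (((lamE b).rename e).eval X - c • (1 : Matrix _ _ k)).det ≠ 0 := by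
  classical
  have hinf : Infinite k := IsAlgClosed.instInfinite
  obtain ⟨W, hW⟩ := good_all (K := k) h2 b [] p
  have hWl : (lamE b).DefinedAt W := lamE_of_rE b [] W hW
  open Polynomial in
  let Φ : k[X] := (X ^ 3 + C b) * (X ^ 2 + C 1) *
    (C 4 * (X ^ 3 + C b) ^ 2 + C 6 * X * (X ^ 3 + C b) + C 3 * X ^ 2) *
    (((lamE b).eval W ^ 3).charpoly.comp (X ^ 3))
  have h4 : (4 : k) ≠ 0 := by
    have : (4 : k) = 2 * 2 := by norm_num
    rw [this]; exact mul_ne_zero h2 h2
  have hΦ : Φ ≠ 0 := by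
    refine mul_ne_zero (mul_ne_zero (mul_ne_zero ?_ ?_) ?_) ?_
    · intro h
      have := congrArg (fun p => Polynomial.coeff p 3) h
      simp [Polynomial.coeff_X_pow, Polynomial.coeff_C] at this
    · intro h
      have := congrArg (fun p => Polynomial.coeff p 0) h
      simp [Polynomial.coeff_X_pow] at this
    · intro h
      have h6 : (Polynomial.C 4 * (Polynomial.X ^ 3 + Polynomial.C b) ^ 2
          + Polynomial.C 6 * Polynomial.X * (Polynomial.X ^ 3 + Polynomial.C b)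
          + Polynomial.C 3 * Polynomial.X ^ 2 : Polynomial k)
          = Polynomial.C 4 * Polynomial.X ^ 6 + Polynomial.C 6 * Polynomial.X ^ 4
          + Polynomial.C (8 * b) * Polynomial.X ^ 3 + Polynomial.C 3 * Polynomial.X ^ 2
          + Polynomial.C (6 * b) * Polynomial.X ^ 1 + Polynomial.C (4 * b ^ 2) := by
        have e8 : (Polynomial.C 8 : Polynomial k) = 2 * Polynomial.C 4 := by
          rw [show (8 : k) = 2 * 4 by norm_num, Polynomial.C_mul]; rfl
        simp only [Polynomial.C_mul, Polynomial.C_pow, e8]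
        ring
      rw [h6] at h
      have := congrArg (fun p => Polynomial.coeff p 6) h
      simp only [Polynomial.coeff_add, Polynomial.coeff_C_mul, Polynomial.coeff_X_pow,
        Polynomial.coeff_C, Polynomial.coeff_zero] at this
      norm_num at this
      exact h4 this
    · have hm : ((lamE b).eval W ^ 3).charpoly.Monic := Matrix.charpoly_monic _
      exact (hm.comp (Polynomial.monic_X_pow 3) (by simp)).ne_zero
  refine ⟨Φ.roots.toFinset, ?_⟩
  intro c hc
  have hc' : Φ.eval c ≠ 0 := by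
    intro h
    apply hc
    rw [Multiset.mem_toFinset, Polynomial.mem_roots hΦ]
    exact h
  simp only [Φ, Polynomial.eval_mul, Polynomial.eval_add, Polynomial.eval_pow, Polynomial.eval_X,
    Polynomial.eval_C, Polynomial.eval_comp] at hc'
  have hc4 := right_ne_zero_of_mul hc'
  have hc3 := right_ne_zero_of_mul (left_ne_zero_of_mul hc')
  have hc2 := right_ne_zero_of_mul (left_ne_zero_of_mul (left_ne_zero_of_mul hc'))
  have hc1 := left_ne_zero_of_mul (left_ne_zero_of_mul (left_ne_zero_of_mul hc'))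
  obtain ⟨μ, hμ⟩ := IsAlgClosed.exists_pow_nat_eq (c ^ 3 + b) (n := 2) (by norm_num)
  have hμ0 : μ ≠ 0 := by
    rintro rfl
    apply hc1
    rw [← hμ]; norm_num
  have hμ4 : 4 * μ ^ 4 + 6 * c * μ ^ 2 + 3 * c ^ 2 ≠ 0 := by
    have : μ ^ 4 = (c ^ 3 + b) ^ 2 := by rw [← hμ]; ring
    rw [this, hμ]; exact hc3
  -- the constant block
  have huW : IsUnit (W 0 * W 1 - W 1 * W 0) := by rwa [defined_lamE] at hWl
  have hfac : ∀ {ι : Type} [Fintype ι] [DecidableEq ι] (Z : Fin 2 → Matrix ι ι k),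
      IsUnit (Z 0 * Z 1 - Z 1 * Z 0) →
      ((muE b).eval Z + μ • (1 : Matrix ι ι k)) * ((muE b).eval Z + (-μ) • (1 : Matrix ι ι k))
        = (lamE b).eval Z ^ 3 - (c ^ 3) • (1 : Matrix ι ι k) := by
    intro ι _ _ Z hZ
    have h7 := (lam_mu Z b hZ).2
    have h8 : (lamE b).eval Z ^ 3 = (muE b).eval Z ^ 2 - algebraMap k _ b := by
      rw [h7]; abel
    rw [h8, Algebra.algebraMap_eq_smul_one]
    have h9 : (c ^ 3) • (1 : Matrix ι ι k) = (μ ^ 2) • (1 : Matrix ι ι k) - b • 1 := by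
      rw [hμ, add_smul]; abel
    have h10 : Commute ((muE b).eval Z) (μ • (1 : Matrix ι ι k)) :=
      (Commute.one_right _).smul_right μ
    have h11 : (μ • (1 : Matrix ι ι k)) * (μ • (1 : Matrix ι ι k)) = (μ ^ 2) • 1 := by
      rw [smul_mul_smul_comm, one_mul, sq]
    rw [h9, neg_smul, ← sub_eq_add_neg, ← h10.mul_self_sub_mul_self_eq, h11, ← sq]
    abel
  have hWdet : ((muE b).eval W + μ • (1 : Matrix _ _ k)).det
      * ((muE b).eval W + (-μ) • (1 : Matrix _ _ k)).det ≠ 0 := by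
    rw [← Matrix.det_mul, hfac W huW]
    rw [Matrix.eval_charpoly] at hc4
    intro h
    apply hc4
    have : (Matrix.scalar _ (c ^ 3) : Matrix (Fin (p + 2)) (Fin (p + 2)) k)
        - (lamE b).eval W ^ 3 = -((lamE b).eval W ^ 3 - (c ^ 3) • 1) := by
      rw [neg_sub, Matrix.smul_one_eq_diagonal]
      rfl
    rw [this, Matrix.det_neg, h, mul_zero]
  obtain ⟨X₁, hd₁, hm₁, hz₁, hn₁⟩ := special_point h2 b e he p W hWl c μ hμ hμ0 hc2 hμ4
    (left_ne_zero_of_mul hWdet)
  obtain ⟨X₂, hd₂, hm₂, hz₂, hn₂⟩ := special_point h2 b e he p W hWl c (-μ)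
    (by rw [neg_sq]; exact hμ) (neg_ne_zero.mpr hμ0) hc2
    (by
      have e1 : (-μ) ^ 4 = μ ^ 4 := by ring
      have e2 : (-μ) ^ 2 = μ ^ 2 := by ring
      rw [e1, e2]; exact hμ4)
    (right_ne_zero_of_mul hWdet)
  obtain ⟨P₁, hP₁, H₁⟩ := detect _ X₁ hm₁ μ hn₁
  obtain ⟨P₂, hP₂, H₂⟩ := detect _ X₂ hm₂ (-μ) hn₂
  refine ⟨P₁, P₂, X₁, X₂, ⟨hd₁, hz₁, hP₁⟩, ⟨hd₂, hz₂, hP₂⟩, ?_⟩
  intro X h5 h6
  obtain ⟨d1, n1⟩ := H₁ X h5
  obtain ⟨d2, n2⟩ := H₂ X h6
  have hu : IsUnit (X (e 0) * X (e 1) - X (e 1) * X (e 0)) := by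
    rw [defined_rename, defined_muE] at d1
    exact d1
  have hl : ((lamE b).rename e).DefinedAt X := by
    rw [defined_rename, defined_lamE]; exact hu
  refine ⟨hl, ?_⟩
  intro h
  have h7 : (((muE b).rename e).eval X + μ • (1 : Matrix _ _ k))
      * (((muE b).rename e).eval X + (-μ) • (1 : Matrix _ _ k))
      = ((lamE b).rename e).eval X ^ 3 - (c ^ 3) • (1 : Matrix _ _ k) := by
    rw [eval_rename, eval_rename]
    exact hfac (fun i => X (e i)) hu
  have h8 : ((lamE b).rename e).eval X ^ 3 - (c ^ 3) • (1 : Matrix _ _ k)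
      = (((lamE b).rename e).eval X - c • (1 : Matrix _ _ k))
        * (((lamE b).rename e).eval X ^ 2 + c • ((lamE b).rename e).eval X
          + (c ^ 2) • (1 : Matrix _ _ k)) := by
    set A := ((lamE b).rename e).eval X
    rw [sub_mul, mul_add, mul_add, smul_mul_assoc, one_mul, smul_add, smul_add, smul_smul,
      smul_smul, mul_smul_comm, mul_smul_comm, mul_one, ← sq, ← pow_succ']
    rw [← sq, ← pow_succ']
    abel
  have h9 := congrArg Matrix.det h7
  rw [h8, Matrix.det_mul, Matrix.det_mul, h, zero_mul] at h9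
  exact (mul_ne_zero n1 n2) h9

end

end Pool.Agent.Helper84
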